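import Pool.Agent.Helper37.Q4.Ws
import Pool.Agent.Helper34.D4.Hv
import Pool.Agent.Helper11.D4.EX1

/-!
# Project D4: homogeneous prime divisors
-/

set_option autoImplicit false

namespace Pool.Agent.Helper37.D4

open Module Pool.Agent.Helper37.SD Pool.Agent.Helper37.Q4 Pool.Agent.Helper88.D4
  Pool.Agent.Helper20.TS

variable {K : Type} [Field K] [Algebra ℂ K] {R : Subalgebra ℂ K}

open Classical in
/-- the least value of the coefficients -/
noncomputable def mn (u : RVal K) (F : ℝ →₀ K) : ℝ :=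
  if h : F.support.Nonempty then F.support.inf' h (fun c => u.val (F c)) else 0

theorem mn_le (u : RVal K) {F : ℝ →₀ K} {c : ℝ} (hc : F c ≠ 0) : mn u F ≤ u.val (F c) := by
  have h1 : c ∈ F.support := Finsupp.mem_support_iff.mpr hc
  have h2 : F.support.Nonempty := ⟨c, h1⟩
  rw [mn, dif_pos h2]
  exact Finset.inf'_le _ h1

theorem exists_mn (u : RVal K) {F : ℝ →₀ K} (hF : F ≠ 0) :
    ∃ c, F c ≠ 0 ∧ mn u F = u.val (F c) := by
  have h2 : F.support.Nonempty := Finsupp.support_nonempty_iff.mpr hF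
  obtain ⟨c, hc, he⟩ := Finset.exists_mem_eq_inf' h2 (fun c => u.val (F c))
  refine ⟨c, Finsupp.mem_support_iff.mp hc, ?_⟩
  rw [mn, dif_pos h2]
  exact he

theorem le_mn_iff (u : RVal K) {F : ℝ →₀ K} (hF : F ≠ 0) (m : ℝ) :
    m ≤ mn u F ↔ ∀ c, F c ≠ 0 → m ≤ u.val (F c) := by
  constructor
  · intro h c hc
    exact h.trans (mn_le u hc)
  · intro h
    obtain ⟨c, hc, he⟩ := exists_mn u hF
    rw [he]
    exact h c hc

/-- the smallest degree where the value is attained -/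
theorem exists_first' (u : RVal K) {F : ℝ →₀ K} (hF : F ≠ 0) :
    ∃ c, F c ≠ 0 ∧ mn u F = u.val (F c) ∧ ∀ b < c, F b ≠ 0 → mn u F < u.val (F b) := by
  classical
  have h1 : (F.support.filter fun c => mn u F = u.val (F c)).Nonempty := by
    obtain ⟨c, hc, he⟩ := exists_mn u hF
    exact ⟨c, Finset.mem_filter.mpr ⟨Finsupp.mem_support_iff.mpr hc, he⟩⟩
  have h2 := Finset.min'_mem _ h1
  rw [Finset.mem_filter] at h2
  refine ⟨_, Finsupp.mem_support_iff.mp h2.1, h2.2, fun b hb hb0 => ?_⟩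
  refine lt_of_le_of_ne (mn_le u hb0) fun he => ?_
  have h3 := Finset.min'_le (F.support.filter fun c => mn u F = u.val (F c)) b
    (Finset.mem_filter.mpr ⟨Finsupp.mem_support_iff.mpr hb0, he⟩)
  exact absurd hb (not_lt.mpr h3)

/-- the product of the families -/
theorem mn_mul (u : RVal K) {F G H : ℝ →₀ K} (hF : F ≠ 0) (hG : G ≠ 0)
    (hH : ∀ e, H e = ∑ p ∈ F.support ×ˢ G.support, if p.1 + p.2 = e then F p.1 * G p.2 else 0) :
    H ≠ 0 ∧ mn u H = mn u F + mn u G := by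
  classical
  obtain ⟨c, hc, hce, hcl⟩ := exists_first' u hF
  obtain ⟨d, hd, hde, hdl⟩ := exists_first' u hG
  have hz0 : F c * G d ≠ 0 := mul_ne_zero hc hd
  have huz0 : u.val (F c * G d) = u.val (F c) + u.val (G d) := u.map_mul _ _ hc hd
  have hcd : (c, d) ∈ F.support ×ˢ G.support :=
    Finset.mem_product.mpr ⟨Finsupp.mem_support_iff.mpr hc, Finsupp.mem_support_iff.mpr hd⟩
  have h1 : H (c + d) = F c * G d + ∑ p ∈ (F.support ×ˢ G.support).erase (c, d),
      if p.1 + p.2 = c + d then F p.1 * G p.2 else 0 := by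
    rw [hH, ← Finset.add_sum_erase _ _ hcd, if_pos rfl]
  have h2 : u.Gt (u.val (F c * G d)) (∑ p ∈ (F.support ×ˢ G.support).erase (c, d),
      if p.1 + p.2 = c + d then F p.1 * G p.2 else 0) := by
    refine gt_sum u _ _ fun p hp => ?_
    rw [Finset.mem_erase, Finset.mem_product, Finsupp.mem_support_iff,
      Finsupp.mem_support_iff] at hp
    obtain ⟨hne, hpF, hpG⟩ := hp
    by_cases he : p.1 + p.2 = c + d
    · rw [if_pos he]
      refine Or.inr ?_
      rw [huz0, u.map_mul _ _ hpF hpG]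
      have e1 := mn_le u hpF
      have e2 := mn_le u hpG
      have e3 : p.1 < c ∨ p.2 < d := by
        by_contra hcon
        push Not at hcon
        apply hne
        have e4 : p.1 = c := by linarith [hcon.1, hcon.2]
        have e5 : p.2 = d := by linarith [hcon.1, hcon.2]
        exact Prod.ext e4 e5
      rcases e3 with e4 | e4
      · have e5 := hcl p.1 e4 hpF
        linarith
      · have e5 := hdl p.2 e4 hpG
        linarith
    · rw [if_neg he]
      exact Or.inl rfl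
  have h3 := u.val_add_eq hz0 h2
  rw [← h1] at h3
  have hH0 : H ≠ 0 := by
    rintro rfl
    exact h3.1 rfl
  refine ⟨hH0, le_antisymm ?_ ?_⟩
  · have h4 := mn_le u h3.1
    rw [h3.2, huz0] at h4
    linarith
  · rw [le_mn_iff u hH0]
    intro e he
    rw [hH] at he ⊢
    obtain ⟨p, hp, hp0, hpu⟩ := exists_le_val u _ _ he
    rw [Finset.mem_product, Finsupp.mem_support_iff, Finsupp.mem_support_iff] at hp
    have hpe : p.1 + p.2 = e := by
      by_contra hcon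
      exact hp0 (if_neg hcon)
    rw [if_pos hpe, u.map_mul _ _ hp.1 hp.2] at hpu
    have e1 := mn_le u hp.1
    have e2 := mn_le u hp.2
    linarith

/-- the valuation of a sum of components -/
theorem mn_le_val (u : RVal K) {D : Derivation ℂ K K} {P : ℝ → Prop} {x : K} {F : ℝ →₀ K}
    (hF : IsDec (D : K →ₗ[ℂ] K) (RS R) P F x) (hx : x ≠ 0) : mn u F ≤ u.val x := by
  have h1 : ∑ c ∈ F.support, F c = x := hF.sum
  obtain ⟨c, _, hc0, hc⟩ := exists_le_val u F.support F (by rw [h1]; exact hx)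
  rw [h1] at hc
  exact (mn_le u hc0).trans hc

section One

variable {D : Derivation ℂ K K}

/-- the least value of the components -/
noncomputable def ub (R : Subalgebra ℂ K) (D : Derivation ℂ K K) (u : RVal K) (x : K) : ℝ :=
  sInf {r : ℝ | ∃ F : ℝ →₀ K, IsDec (D : K →ₗ[ℂ] K) (RS R) (fun _ => True) F x ∧ r = mn u F}

theorem isDec_true {P : ℝ → Prop} {x : K} {F : ℝ →₀ K}
    (hF : IsDec (D : K →ₗ[ℂ] K) (RS R) P F x) :
    IsDec (D : K →ₗ[ℂ] K) (RS R) (fun _ => True) F x :=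
  ⟨hF.eig, hF.mem, fun _ _ => trivial, hF.sum⟩

theorem ub_eq (u : RVal K) {P : ℝ → Prop} {x : K} {F : ℝ →₀ K}
    (hF : IsDec (D : K →ₗ[ℂ] K) (RS R) P F x) : ub R D u x = mn u F := by
  have e : {r : ℝ | ∃ F : ℝ →₀ K, IsDec (D : K →ₗ[ℂ] K) (RS R) (fun _ => True) F x ∧
      r = mn u F} = {mn u F} := by
    ext r
    constructor
    · rintro ⟨G, hG, rfl⟩
      rw [hG.unique hF]
      rfl
    · rintro rfl
      exact ⟨F, isDec_true hF, rfl⟩
  rw [ub, e, csInf_singleton]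

theorem ub_mul (hD : ∀ x ∈ R, x ∈ Hsp (D : K →ₗ[ℂ] K) (RS R) (fun _ => True)) (u : RVal K)
    {x y : K} (hx : x ∈ R) (hy : y ∈ R) (hx0 : x ≠ 0) (hy0 : y ≠ 0) :
    ub R D u (x * y) = ub R D u x + ub R D u y := by
  obtain ⟨F, hF⟩ := exists_dec (hD x hx)
  obtain ⟨G, hG⟩ := exists_dec (hD y hy)
  obtain ⟨H, hH, hHe⟩ := dec_mul hF hG
  rw [ub_eq u hF, ub_eq u hG, ub_eq u hH]
  exact (mn_mul u (dec_ne_zero hF hx0) (dec_ne_zero hG hy0) hHe).2

theorem ub_pow (hD : ∀ x ∈ R, x ∈ Hsp (D : K →ₗ[ℂ] K) (RS R) (fun _ => True)) (u : RVal K)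
    {x : K} (hx : x ∈ R) (hx0 : x ≠ 0) (hu : ∀ x ∈ R, x ≠ 0 → 0 ≤ u.val x) (n : ℕ) :
    ub R D u (x ^ n) = n * ub R D u x := by
  induction n with
  | zero =>
    have h1 := ub_mul hD u (x := (1 : K)) (y := (1 : K)) R.one_mem R.one_mem one_ne_zero
      one_ne_zero
    rw [mul_one] at h1
    rw [pow_zero, Nat.cast_zero, zero_mul]
    linarith
  | succ n ih =>
    rw [pow_succ, ub_mul hD u (R.pow_mem hx n) hx (pow_ne_zero n hx0) hx0, ih]
    push_cast
    ring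

theorem ub_le (hD : ∀ x ∈ R, x ∈ Hsp (D : K →ₗ[ℂ] K) (RS R) (fun _ => True)) (u : RVal K)
    {x : K} (hx : x ∈ R) (hx0 : x ≠ 0) : ub R D u x ≤ u.val x := by
  obtain ⟨F, hF⟩ := exists_dec (hD x hx)
  rw [ub_eq u hF]
  exact mn_le_val u hF hx0

theorem ub_nonneg (hD : ∀ x ∈ R, x ∈ Hsp (D : K →ₗ[ℂ] K) (RS R) (fun _ => True)) (u : RVal K)
    (hu : ∀ x ∈ R, x ≠ 0 → 0 ≤ u.val x) {x : K} (hx : x ∈ R) (hx0 : x ≠ 0) :
    0 ≤ ub R D u x := by
  obtain ⟨F, hF⟩ := exists_dec (hD x hx)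
  rw [ub_eq u hF, le_mn_iff u (dec_ne_zero hF hx0)]
  exact fun c hc => hu _ (hF.mem c) hc

theorem ub_eig (u : RVal K) {x : K} (hx : x ∈ R) (hx0 : x ≠ 0) {a : ℝ} (ha : D x = (a : ℂ) • x) :
    ub R D u x = u.val x := by
  have h2 := isDec_single (A := (D : K →ₗ[ℂ] K)) ha
  have h1 : IsDec (D : K →ₗ[ℂ] K) (RS R) (fun _ => True) (Finsupp.single a x) x := by
    refine ⟨h2.eig, fun b => ?_, fun _ _ => trivial, h2.sum⟩
    by_cases hb : a = b
    · subst hb
      rw [Finsupp.single_eq_same]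
      exact hx
    · rw [Finsupp.single_eq_of_ne (Ne.symm hb)]
      exact Submodule.zero_mem _
  rw [ub_eq u h1]
  obtain ⟨b, hb, he⟩ := exists_mn u (F := Finsupp.single a x)
    (by
      rw [Ne, Finsupp.single_eq_zero]
      exact hx0)
  have hb0 : b = a := by
    by_contra hcon
    rw [Finsupp.single_apply, if_neg (Ne.symm hcon)] at hb
    exact hb rfl
  rw [he, hb0, Finsupp.single_eq_same]

/-- **a prime divisor in the zeros of an eigenvector is homogeneous** -/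
theorem ub_eq_val (hD : ∀ x ∈ R, x ∈ Hsp (D : K →ₗ[ℂ] K) (RS R) (fun _ => True)) {u : RVal K}
    (hu : PDiv R u) {s : K} (hs : s ∈ R) (hs0 : s ≠ 0) {a : ℝ} (hsa : D s = (a : ℂ) • s)
    (hsu : 0 < u.val s) {x : K} (hx : x ∈ R) (hx0 : x ≠ 0) : ub R D u x = u.val x := by
  obtain ⟨p, hp, hp0, hpu⟩ := hu.unif
  have hpow : ∀ n : ℕ, u.val (p ^ n) = n := by
    intro n
    induction n with
    | zero => rw [pow_zero, u.val_one, Nat.cast_zero]
    | succ n ih =>
      rw [pow_succ, u.map_mul _ _ (pow_ne_zero n hp0) hp0, ih, hpu]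
      push_cast
      ring
  -- quotients by powers of `p`
  have key : ∀ {y : K}, y ∈ R → y ≠ 0 → ∃ (n : ℕ), u.val y = n := by
    intro y hy hy0
    obtain ⟨k, hk⟩ := hu.int y hy0
    have h1 := hu.nonneg y hy hy0
    rw [hk] at h1
    have h2 : 0 ≤ k := by exact_mod_cast h1
    obtain ⟨n, rfl⟩ := Int.eq_ofNat_of_zero_le h2
    exact ⟨n, by rw [hk]; simp⟩
  have hub0 : ∀ {s' : K}, s' ∈ R → s' ≠ 0 → u.val s' = 0 → ub R D u s' = 0 := by
    intro s' hs' hs'0 h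
    have h1 := ub_le hD u hs' hs'0
    have h2 := ub_nonneg hD u hu.nonneg hs' hs'0
    linarith
  have hup : 1 ≤ ub R D u p := by
    obtain ⟨N, hN⟩ := key hs hs0
    have hN0 : (0 : ℝ) < N := by rw [← hN]; exact hsu
    have hq0 : p ^ N / s ≠ 0 := div_ne_zero (pow_ne_zero N hp0) hs0
    obtain ⟨s', hs', hs'0, hs'u, hz⟩ := hu.loc (p ^ N / s) hq0 (by
      rw [u.val_div (pow_ne_zero N hp0) hs0, hpow, hN, sub_self])
    have hz0 : s' * (p ^ N / s) ≠ 0 := mul_ne_zero hs'0 hq0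
    have e : s' * p ^ N = s * (s' * (p ^ N / s)) := by
      field_simp
    have h1 := ub_mul hD u hs' (R.pow_mem hp N) hs'0 (pow_ne_zero N hp0)
    rw [e, ub_mul hD u hs hz hs0 hz0, ub_eig u hs hs0 hsa, hN, hub0 hs' hs'0 hs'u, zero_add,
      ub_pow hD u hp hp0 hu.nonneg] at h1
    have h2 := ub_nonneg hD u hu.nonneg hz hz0
    have h3 : (N : ℝ) * 1 ≤ N * ub R D u p := by linarith
    exact le_of_mul_le_mul_left h3 hN0
  obtain ⟨n, hn⟩ := key hx hx0
  have hq0 : x / p ^ n ≠ 0 := div_ne_zero hx0 (pow_ne_zero n hp0)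
  obtain ⟨s', hs', hs'0, hs'u, hz⟩ := hu.loc (x / p ^ n) hq0 (by
    rw [u.val_div hx0 (pow_ne_zero n hp0), hpow, hn, sub_self])
  have hz0 : s' * (x / p ^ n) ≠ 0 := mul_ne_zero hs'0 hq0
  have e : s' * x = p ^ n * (s' * (x / p ^ n)) := by
    field_simp
  have h1 := ub_mul hD u hs' hx hs'0 hx0
  rw [e, ub_mul hD u (R.pow_mem hp n) hz (pow_ne_zero n hp0) hz0, hub0 hs' hs'0 hs'u, zero_add,
    ub_pow hD u hp hp0 hu.nonneg] at h1
  have h2 := ub_nonneg hD u hu.nonneg hz hz0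
  have h3 : (n : ℝ) * 1 ≤ n * ub R D u p := mul_le_mul_of_nonneg_left hup (Nat.cast_nonneg n)
  have h4 := ub_le hD u hx hx0
  rw [hn] at h4 ⊢
  linarith

end One

section Torus

variable {ξ : Derivation ℂ K K} {r : ℕ} {H : Fin r → Derivation ℂ K K} {c : Fin r → ℝ}

theorem tor_dec (hT : Tor R ξ H c) (i : Fin r) {x : K} (hx : x ∈ R) :
    x ∈ Hsp (H i : K →ₗ[ℂ] K) (RS R) (fun _ => True) := by
  refine (Submodule.span_le.mpr ?_ : Submodule.span ℂ {y | y ∈ R ∧ ∃ m : Fin r → ℤ, IsW H m y} ≤ _)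
    (hT.span x hx)
  rintro y ⟨hy, m, hm⟩
  refine mem_hsp (c := ((m i : ℤ) : ℝ)) hy trivial ?_
  show H i y = _
  rw [hm i]
  push_cast
  rfl

/-- integral weights -/
theorem isW_of_eig (hT : Tor R ξ H c) {x : K} (hx : x ∈ R) (hx0 : x ≠ 0)
    (h : ∀ i, ∃ a : ℝ, H i x = (a : ℂ) • x) : ∃ m' : Fin r → ℤ, IsW H m' x := by
  have h1 : ∀ i, ∃ n : ℤ, H i x = ((n : ℤ) : ℂ) • x := by
    intro i
    obtain ⟨a, ha⟩ := h i
    obtain ⟨n, hn⟩ := prop_of_mem_hsp (A := (H i : K →ₗ[ℂ] K)) hx0 ha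
      (Pool.Agent.Helper34.D4.tor_hsp hT i hx)
    refine ⟨n, ?_⟩
    rw [ha, hn]
    push_cast
    rfl
  choose m' hm' using h1
  exact ⟨m', hm'⟩

theorem isW_real {s : K} {m : Fin r → ℤ} (hm : IsW H m s) (i : Fin r) :
    H i s = (((m i : ℤ) : ℝ) : ℂ) • s := by
  rw [hm i]
  push_cast
  rfl

theorem eig_comp {A B : Derivation ℂ K K} (hAB : ⁅A, B⁆ = 0) {x : K} {F : ℝ →₀ K} {P : ℝ → Prop}
    (hF : IsDec (B : K →ₗ[ℂ] K) (RS R) P F x) {a : ℝ} (hx : A x = (a : ℂ) • x) (b : ℝ) :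
    A (F b) = (a : ℂ) • F b := by
  have hc : ∀ y, A (B y) = B (A y) := by
    intro y
    have h1 : ⁅A, B⁆ y = 0 := by rw [hAB]; rfl
    rw [Derivation.commutator_apply] at h1
    exact sub_eq_zero.mp h1
  have h1 : IsDec (B : K →ₗ[ℂ] K) ⊤ (fun _ => True) (F.mapRange A (map_zero A)) (A x) := by
    refine ⟨fun b => ?_, fun _ => Submodule.mem_top, fun _ _ => trivial, ?_⟩
    · rw [Finsupp.mapRange_apply]
      have h2 : B (F b) = (b : ℂ) • F b := hF.eig b
      show B (A (F b)) = _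
      rw [← hc, h2, Derivation.map_smul]
    · rw [Finsupp.sum_mapRange_index (fun _ => rfl), ← hF.sum, Finsupp.sum, Finsupp.sum, map_sum]
  have h2 : IsDec (B : K →ₗ[ℂ] K) ⊤ (fun _ => True) ((a : ℂ) • F) (A x) := by
    refine ⟨fun b => ?_, fun _ => Submodule.mem_top, fun _ _ => trivial, ?_⟩
    · rw [Finsupp.smul_apply, map_smul, hF.eig, smul_comm]
    · rw [Finsupp.sum_smul_index' (fun _ => rfl), ← Finsupp.smul_sum, hF.sum, hx]
  have h3 := h1.unique h2
  have h4 := DFunLike.congr_fun h3 b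
  rwa [Finsupp.mapRange_apply, Finsupp.smul_apply] at h4

end Torus

theorem s_HT : S_HT := by
  intro K _ _ R ξ r H c hR hT u hu s m hs hs0 hsm hsu
  classical
  have key : ∀ S : Finset (Fin r), ∃ t ∈ R, t ≠ 0 ∧ u.val t = 1 ∧
      ∀ i ∈ S, ∃ a : ℝ, H i t = (a : ℂ) • t := by
    intro S
    induction S using Finset.induction_on with
    | empty =>
      obtain ⟨p, hp, hp0, hpu⟩ := hu.unif
      exact ⟨p, hp, hp0, hpu, fun i hi => absurd hi (Finset.notMem_empty i)⟩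
    | insert i S _ ih =>
      obtain ⟨t, ht, ht0, htu, hte⟩ := ih
      obtain ⟨F, hF⟩ := exists_dec (tor_dec hT i ht)
      have h1 := ub_eq_val (fun x hx => tor_dec hT i hx) hu hs hs0 (isW_real hsm i) hsu ht ht0
      rw [ub_eq u hF, htu] at h1
      obtain ⟨b, hb, he⟩ := exists_mn u (dec_ne_zero hF ht0)
      refine ⟨F b, hF.mem b, hb, by rw [← he, h1], fun j hj => ?_⟩
      rcases Finset.mem_insert.mp hj with rfl | hj
      · exact ⟨b, hF.eig b⟩
      · obtain ⟨a, ha⟩ := hte j hj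
        exact ⟨a, eig_comp (hT.comm j i) hF ha b⟩
  obtain ⟨t, ht, ht0, htu, hte⟩ := key Finset.univ
  exact ⟨t, ht, ht0, isW_of_eig hT ht ht0 fun i => hte i (Finset.mem_univ i), htu⟩

theorem s_HF : S_HF := by
  intro K _ _ R ξ r H c hR hn hT u hu s m hs hs0 hsm hsu F hF
  obtain ⟨hFR, hF0, hFu, hFd⟩ := hF
  refine isW_of_eig hT hFR hF0 fun i => ?_
  obtain ⟨G, hG⟩ := exists_dec (tor_dec hT i hFR)
  have h1 := ub_eq_val (fun x hx => tor_dec hT i hx) hu hs hs0 (isW_real hsm i) hsu hFR hF0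
  rw [ub_eq u hG] at h1
  obtain ⟨b, hb, _⟩ := exists_mn u (dec_ne_zero hG hF0)
  have hq0 : G b / F ≠ 0 := div_ne_zero hb hF0
  have h2 : G b / F ∈ R := by
    by_contra hcon
    obtain ⟨u', hu', hneg⟩ := Pool.Agent.Helper11.D4.s_EX1 K R hR.frac hR.fg hn _ hcon
    rw [u'.val_div hb hF0] at hneg
    have h3 := hu'.nonneg _ (hG.mem b) hb
    have h4 := hu'.nonneg F hFR hF0
    rcases lt_or_eq_of_le h4 with h5 | h5
    · rw [hFd u' hu' h5 _ hb, hFd u' hu' h5 _ hF0, ← h1] at hneg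
      have := mn_le u hb
      linarith
    · rw [← h5] at hneg
      linarith
  exact Pool.Agent.Helper34.D4.eig_of_mul (z := G b)
    (Pool.Agent.Helper34.D4.tor_hsp hT i hFR) (Pool.Agent.Helper34.D4.tor_hsp hT i h2) hb
    (by field_simp) (hG.eig b)

end Pool.Agent.Helper37.D4
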