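import Pool.Agent.Helper37.Q4.DirW

/-!
# Project D4, package V: S_V4W
-/

set_option autoImplicit false

namespace Pool.Agent.Helper37.D4

open Pool.Agent.Helper88.D4

theorem s_V4W : S_V4W := Pool.Agent.Helper37.Q4.V4W

end Pool.Agent.Helper37.D4
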