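import Pool.Agent.Helper88.D4.Stmts5
import Pool.Agent.Helper80.D4.B1s

/-!
# Project D4 (MP_e1889a_ag): B1 for the weight zero (S_B1z), from S_GW

If there were no first integral, the Wronskian `W` of a basis of `Wsp (j w₀)` would have the weight
`-p w₀`, `p > 0`, and `W ^ j g` would be regular of weight `0` for all `g` in `Wsp (j p w₀)`.
-/

set_option autoImplicit false

namespace Pool.Agent.Helper37.D4

open Module Pool.Agent.Helper37.SD Pool.Agent.Helper20.TS Pool.Agent.Helper88.D4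
  Pool.Agent.Helper11.D4

variable {K : Type} [Field K] [Algebra ℂ K]

theorem isW_npow {r : ℕ} {H : Fin r → Derivation ℂ K K} {m : Fin r → ℤ} {x : K} (hx : IsW H m x)
    (n : ℕ) : IsW H ((n : ℤ) • m) (x ^ n) := by
  by_cases h0 : x = 0
  · intro i
    rcases n.eq_zero_or_pos with hn | hn
    · subst hn
      rw [pow_zero, Derivation.map_one_eq_zero]
      simp
    · rw [h0, zero_pow hn.ne', map_zero, smul_zero]
  · have h := Helper80.D4.isW_zpow h0 hx (n : ℤ)
    rwa [zpow_natCast] at h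

/-- there is no growth along `w₀` without a first integral -/
theorem first_integral (hGW : S_GW) (hPT : S_PT) (hSZ : S_Z) (hZu : S_Zu) (hREG : S_REG)
    (hWW : S_WW) (hWV : S_WV) (hWR : S_WR) (hWN : S_WN) (hEX : S_EX1)
    {R : Subalgebra ℂ K} {ξ : Derivation ℂ K K} {J : Bra K} {v : RVal K} {a V : ℝ}
    {H : Fin 2 → Derivation ℂ K K} {c : Fin 2 → ℝ} (hC : Cone4 R ξ J a)
    (hM : IsMinF R ξ J v a V) (hT : Tor R ξ H c) {w₀ : Fin 2 → ℤ}
    (hJw : ∀ i, HomBra (H i) (w₀ i : ℂ) J) {α : Helper88.D4.One K} (hα : Al R ξ H 0 α)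
    (hαH : ∀ i, α (H i) = 0) {Z : Derivation ℂ K K} (hZ : IsZ J H α Z)
    (hZw : ∀ m φ, IsW H m φ → IsW H (m + (0 - w₀)) (Z φ)) :
    ∃ h, (∀ i, H i h = 0) ∧ Z h = 0 ∧ ¬ Cst h := by
  by_contra hcon
  push Not at hcon
  obtain ⟨j, hj, hfin, hgr⟩ := hGW K R ξ J v a V H c hC hM hT w₀ hJw 2
  set m : Fin 2 → ℤ := (j : ℤ) • w₀ with hm
  set n : ℕ := finrank ℂ (Wsp R H m) with hn
  have hn2 : 2 * (j + 1) < n := by
    have h1 : ((2 * (j + 1) : ℕ) : ℝ) < (n : ℝ) := by
      push_cast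
      exact hgr
    exact_mod_cast h1
  set s : ℕ := ∑ i : Fin n, (i : ℕ) with hs
  have hs2 : s * 2 = n * (n - 1) := by
    rw [hs, Fin.sum_univ_eq_sum_range (fun i => i) n, Finset.sum_range_id_mul_two]
  obtain ⟨p, hp, hp0⟩ : ∃ p : ℕ, s = n * j + p ∧ 0 < p := by
    have h1 : n * (2 * (j + 1)) ≤ n * (n - 1) := Nat.mul_le_mul_left n (by omega)
    have h2 : n * j + n ≤ s := by
      have h3 : n * (2 * (j + 1)) = 2 * (n * j + n) := by ring
      omega
    exact ⟨s - n * j, by omega, by omega⟩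
  let b := Module.finBasis ℂ (Wsp R H m)
  let f : Fin n → K := fun i => (b i : K)
  have hfR : ∀ i, f i ∈ R := fun i => (b i).2.1
  have hfw : ∀ i, IsW H m (f i) := fun i => (b i).2.2
  have hf0 : ∀ i, f i ≠ 0 := fun i h => b.ne_zero i (Subtype.ext h)
  have hfli : LinearIndependent ℂ f := b.linearIndependent.map' (Wsp R H m).subtype
    (Submodule.ker_subtype _)
  have hW : wr Z f ≠ 0 := hWN K 2 H Z (0 - w₀) hZw hcon n f m hfw hfli
  have hWw := hWW K 2 H Z (0 - w₀) hZw n f m hfw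
  rw [← hs] at hWw
  set W : K := wr Z f with hWdef
  -- the weight of the Wronskian
  have hwt : (n : ℤ) • m + (s : ℤ) • (0 - w₀) = (-(p : ℤ)) • w₀ := by
    rw [hm, hp]
    funext i
    simp only [Pi.add_apply, Pi.smul_apply, Pi.sub_apply, Pi.zero_apply, smul_eq_mul]
    push_cast
    ring
  rw [hwt] at hWw
  have hat : ∀ u, PDiv R u → 0 ≤ u.val W ∨ ∃ ρ : Fin 2 → ℝ,
      (∀ m φ, φ ≠ 0 → IsW H m φ → u.val φ = ∑ i, ρ i * m i) ∧ ∑ i, ρ i * w₀ i = 1 ∧
        ∑ i, ρ i * (0 : Fin 2 → ℤ) i = 0 := fun u hu =>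
    wr_at hPT hSZ hZu hREG hWW hWV hWR hC hT hα hαH hJw hZ hZw hfR hf0 hfw hW hu
  -- the products are constants
  have key : ∀ g : K, g ∈ R → g ≠ 0 → IsW H ((p : ℤ) • m) g → Cst (W ^ j * g) := by
    intro g hgR hg0 hgw
    have hmem : W ^ j * g ∈ R := by
      by_contra hnot
      obtain ⟨u, hu, hneg⟩ := hEX K R hC.frac hC.fg hC.normal _ hnot
      rw [u.map_mul _ _ (pow_ne_zero j hW) hg0, u.val_pow hW] at hneg
      rcases hat u hu with h1 | ⟨ρ, hρ, hρw, _⟩
      · have h2 := hu.nonneg g hgR hg0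
        have h3 : 0 ≤ (j : ℝ) * u.val W := mul_nonneg (Nat.cast_nonneg _) h1
        linarith
      · have h1 := hρ _ W hW hWw
        have h2 := hρ _ g hg0 hgw
        have e1 : ∑ i, ρ i * (((-(p : ℤ)) • w₀) i : ℤ) = -(p : ℝ) := by
          have : ∑ i, ρ i * (((-(p : ℤ)) • w₀) i : ℤ) = -(p : ℝ) * ∑ i, ρ i * w₀ i := by
            rw [Finset.mul_sum]
            refine Finset.sum_congr rfl fun i _ => ?_
            simp only [Pi.smul_apply, smul_eq_mul]
            push_cast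
            ring
          rw [this, hρw, mul_one]
        have e2 : ∑ i, ρ i * (((p : ℤ) • m) i : ℤ) = (p : ℝ) * j := by
          have : ∑ i, ρ i * (((p : ℤ) • m) i : ℤ) = (p : ℝ) * j * ∑ i, ρ i * w₀ i := by
            rw [Finset.mul_sum, hm]
            refine Finset.sum_congr rfl fun i _ => ?_
            simp only [Pi.smul_apply, smul_eq_mul]
            push_cast
            ring
          rw [this, hρw, mul_one]
        rw [e1] at h1
        rw [e2] at h2
        rw [h1, h2] at hneg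
        nlinarith
    have hw0 : IsW H 0 (W ^ j * g) := by
      have h1 := Helper80.D4.isW_mul (isW_npow hWw j) hgw
      have e : (j : ℤ) • (-(p : ℤ)) • w₀ + (p : ℤ) • m = 0 := by
        rw [hm]
        funext i
        simp only [Pi.add_apply, Pi.smul_apply, Pi.zero_apply, smul_eq_mul]
        ring
      rwa [e] at h1
    obtain ⟨z, hz⟩ := hC.const _ hmem (by
      rw [Helper48.D4.xi_w hT hw0]
      simp)
    exact ⟨z, hz⟩
  -- two elements of the weight space
  have hn1 : 1 < n := by omega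
  set i₀ : Fin n := ⟨0, by omega⟩ with hi₀
  set i₁ : Fin n := ⟨1, hn1⟩ with hi₁
  obtain ⟨z₀, hz₀⟩ := key (f i₀ ^ p) (R.pow_mem (hfR _) p) (pow_ne_zero p (hf0 _))
    (isW_npow (hfw _) p)
  obtain ⟨z₁, hz₁⟩ := key (f i₀ ^ (p - 1) * f i₁) (R.mul_mem (R.pow_mem (hfR _) _) (hfR _))
    (mul_ne_zero (pow_ne_zero _ (hf0 _)) (hf0 _)) (by
      have h1 := Helper80.D4.isW_mul (isW_npow (hfw i₀) (p - 1)) (hfw i₁)
      have e : ((p - 1 : ℕ) : ℤ) • m + m = (p : ℤ) • m := by
        rw [Nat.cast_sub hp0, sub_smul, Nat.cast_one, one_smul, sub_add_cancel]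
      rwa [e] at h1)
  -- `z₁ f₀ = z₀ f₁`
  have hrel : z₁ • f i₀ - z₀ • f i₁ = 0 := by
    have h1 : (W ^ j * f i₀ ^ (p - 1)) * (z₁ • f i₀ - z₀ • f i₁) = 0 := by
      have hpp : f i₀ ^ p = f i₀ ^ (p - 1) * f i₀ := by
        rw [← pow_succ]
        congr 1
        omega
      rw [Algebra.smul_def, Algebra.smul_def, ← hz₁, ← hz₀, hpp]
      ring
    exact (mul_eq_zero.mp h1).resolve_left (mul_ne_zero (pow_ne_zero j hW)
      (pow_ne_zero _ (hf0 _)))
  have hz0 : z₀ ≠ 0 := by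
    rintro rfl
    rw [map_zero] at hz₀
    exact mul_ne_zero (pow_ne_zero j hW) (pow_ne_zero p (hf0 _)) hz₀
  have hli2 := (Fintype.linearIndependent_iff.mp hfli)
    (fun i => if i = i₀ then z₁ else if i = i₁ then -z₀ else 0) (by
      have h1 : ∀ i : Fin n, (if i = i₀ then z₁ else if i = i₁ then -z₀ else 0) • f i =
          (if i = i₀ then z₁ • f i₀ else 0) + (if i = i₁ then -(z₀ • f i₁) else 0) := by
        intro i
        have hne : i₀ ≠ i₁ := by
          intro h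
          have := congrArg Fin.val h
          simp [hi₀, hi₁] at this
        by_cases h0 : i = i₀
        · subst h0
          rw [if_pos rfl, if_pos rfl, if_neg hne, add_zero]
        · rw [if_neg h0, if_neg h0, zero_add]
          by_cases h2 : i = i₁
          · rw [if_pos h2, if_pos h2, h2, neg_smul]
          · rw [if_neg h2, if_neg h2, zero_smul]
      simp_rw [h1]
      rw [Finset.sum_add_distrib, Finset.sum_ite_eq' Finset.univ i₀,
        Finset.sum_ite_eq' Finset.univ i₁, if_pos (Finset.mem_univ _), if_pos (Finset.mem_univ _),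
        ← sub_eq_add_neg]
      exact hrel) i₁
  have hne : i₁ ≠ i₀ := by
    intro h
    have := congrArg Fin.val h
    simp [hi₀, hi₁] at this
  simp only [hne, if_false, if_true] at hli2
  exact hz0 (neg_eq_zero.mp hli2)

/-- B1 for the weight zero -/
theorem s_B1z_of (hGW : S_GW) (hPT : S_PT) (hSZ : S_Z) (hZu : S_Zu) (hREG : S_REG)
    (hWW : S_WW) (hWV : S_WV) (hWR : S_WR) (hWN : S_WN) (hW0 : S_W0) (hEX : S_EX1)
    (hB1a : S_B1a) (hAI : S_AI) : S_B1z := by
  intro K _ _ R ξ J v a V r H c hC hM hT hr α hα hαH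
  rcases hr.lt_or_eq with hlr | hlr
  · exact hB1a K R ξ J v a V r H c hC hM hT hlr 0 α hα hαH
  · subst hlr
    obtain ⟨w₀, hJw, _⟩ := hW0 K R ξ J a 2 H c hC hT
    have hLI := Helper48.D4.s_B0 K R ξ 2 H c hC.frac hT
    obtain ⟨x, y, mx, my, hxR, hyR, hx0, hy0, hx, hy, hdet⟩ := Helper80.D4.exists_indep hC.frac hT
    obtain ⟨t, Z, ht, hZ, hZe⟩ :=
      hSZ K J H α hC.trdeg hC.alt hLI hαH x y mx my hx0 hy0 hx hy hdet
    have hZw := isW_Z hC.alt hJw hα hx0 hy0 hx hy hZe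
    obtain ⟨h, h1, h2, h3⟩ := first_integral hGW hPT hSZ hZu hREG hWW hWV hWR hWN hEX hC hM hT hJw
      hα hαH hZ hZw
    obtain ⟨p, q, r, hb⟩ := (hAI K J hC.trdeg hC.alt).2.2 h h3
    refine ⟨h, h1, h3, -(Z p * (H 0 q * H 1 r - H 0 r * H 1 q) -
      Z q * (H 0 p * H 1 r - H 0 r * H 1 p)
      + Z r * (H 0 p * H 1 q - H 0 q * H 1 p)) / J p q r h, fun D => ?_⟩
    have e := hZ D ![h, p, q, r]
    have hbrk : brk J ![h, p, q, r] = J p q r h := rfl
    rw [hbrk, Helper87.D4.dt_eq] at e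
    simp only [Matrix.cons_val_zero, Matrix.cons_val_one, Matrix.cons_val, h1, h2] at e
    rw [div_mul_eq_mul_div, eq_div_iff hb]
    rw [e]
    ring

/-- **S_B1z** -/
theorem s_B1z (hGW : S_GW) : S_B1z :=
  s_B1z_of hGW
    (Helper80.D4.s_PT Helper37.D4.s_HT Helper75.D4.s_LDpd Helper76.D4.s_UN Helper12.D4.s_AI)
    (Helper87.D4.s_Z Helper12.D4.s_JD Helper12.D4.s_AI) (Helper87.D4.s_Zu Helper12.D4.s_AI)
    (Helper96.D4.s_REG Helper12.D4.s_AI Helper76.D4.s_UN s_EX1) Helper13.D4.s_WW Helper13.D4.s_WV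
    Helper13.D4.s_WR Helper13.D4.s_WN (Helper38.W0.s_W0 Helper12.D4.s_AI s_EX1) s_EX1
    (Helper80.D4.s_B1a Helper48.D4.s_B0 Helper48.D4.s_CNT Helper12.D4.s_AI) Helper12.D4.s_AI

end Pool.Agent.Helper37.D4
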