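import Pool.Agent.Helper37.D4.DegB
import Pool.Agent.Helper37.Q4.Ws
import Pool.Agent.Helper76.D4.Stmts7
import Pool.Agent.Helper79.D4.TW

/-!
# Project D4, stage 7: the valuation `wt / d - deg` (S_DEx)
-/

set_option autoImplicit false

namespace Pool.Agent.Helper37.D4

open Module Pool.Agent.Helper37.SD Pool.Agent.Helper37.Q4 Pool.Agent.Helper88.D4
  Pool.Agent.Helper20.TS Pool.Agent.Helper76.D4

/-- a first integral is a constant factor of the twisted iterates -/
theorem tw_mul_left {K : Type} [Field K] [Algebra ℂ K] {Z : Derivation ℂ K K} {x : K} {N : ℕ}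
    {h : K} (hh : Z h = 0) (F : K) (j : ℕ) : tw Z x N (h * F) j = h * tw Z x N F j := by
  induction j with
  | zero => rfl
  | succ j ih =>
    rw [tw_succ, tw_succ, ih]
    unfold twd
    rw [Derivation.leibniz, hh, smul_eq_mul, smul_zero, add_zero]
    ring

/-- **(DEx)** -/
theorem s_DEx : S_DEx := by
  intro K _ _ R ξ J a hC Z x N d hZ hx0 hN hdiv hd hvan0
  classical
  have hc0 : CharZero K := Pool.Agent.Helper12.D4.char0 K
  have hR : IsCone R ξ := hC.toIsCone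
  have hT : TwD R ξ d (tw Z x N) := ⟨hd, fun _ => rfl, hvan0,
    fun F G j => Pool.Agent.Helper79.TWS.tw_add Z x N F G j,
    fun F G j => Pool.Agent.Helper79.TWS.tw_mul Z x N F G j⟩
  obtain ⟨z, D, hdat⟩ := exists_dat hC.trdeg hC.alt hx0 hN hZ hdiv
  obtain ⟨u, hu⟩ := hT.exists_val hR hc0
  have hgd : ∀ {P : ℝ → Prop} {G : ℝ →₀ K} {x : K}, IsDec (ξ : K →ₗ[ℂ] K) (RS R) P G x →
      Gd R ξ G := fun hG c => ⟨hG.mem c, hG.eig c⟩
  -- homogeneous elements
  have hsing : ∀ {F : K} {w : ℝ}, F ∈ R → ξ F = (w : ℂ) • F →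
      IsDec (ξ : K →ₗ[ℂ] K) (RS R) (fun _ => True) (Finsupp.single w F) F := by
    intro F w hF hw
    have h2 := isDec_single (A := (ξ : K →ₗ[ℂ] K)) hw
    refine ⟨h2.eig, fun b => ?_, fun _ _ => trivial, h2.sum⟩
    by_cases hb : w = b
    · subst hb
      rw [Finsupp.single_eq_same]
      exact hF
    · rw [Finsupp.single_eq_of_ne (Ne.symm hb)]
      exact Submodule.zero_mem _
  have hle : ∀ {F : K} {w : ℝ}, F ∈ R → F ≠ 0 → ξ F = (w : ℂ) • F → ∀ j, tw Z x N F j ≠ 0 →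
      u.val F ≤ w / d - j := by
    intro F w hF hF0 hw j hj
    rw [hu F hF hF0 _ _ (hsing hF hw)]
    refine hT.mt_le (hgd (hsing hF hw)) (p := (w, j)) ?_
    show tw Z x N (Finsupp.single w F w) j ≠ 0
    rwa [Finsupp.single_eq_same]
  have hex : ∀ {F : K} {w : ℝ}, F ∈ R → F ≠ 0 → ξ F = (w : ℂ) • F →
      ∃ k, tw Z x N F k ≠ 0 ∧ tw Z x N F (k + 1) = 0 ∧ u.val F = w / d - k := by
    intro F w hF hF0 hw
    have hdec := hsing hF hw
    obtain ⟨p, hp, he, _⟩ := hT.exists_min (hgd hdec) (dec_ne_zero hdec hF0)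
    have hp' : tw Z x N (Finsupp.single w F p.1) p.2 ≠ 0 := hp
    have hp1 : p.1 = w := by
      by_contra hcon
      rw [Finsupp.single_eq_of_ne hcon, hT.zero] at hp'
      exact hp' rfl
    rw [hp1, Finsupp.single_eq_same] at hp'
    have hval : u.val F = w / d - p.2 := by
      rw [hu F hF hF0 _ _ hdec, he, hp1]
    refine ⟨p.2, hp', ?_, hval⟩
    by_contra hcon
    have h6 := hle hF hF0 hw _ hcon
    rw [hval] at h6
    push_cast at h6
    linarith
  have hvan : ∀ (F : K) (i j : ℕ), tw Z x N F i = 0 → i ≤ j → tw Z x N F j = 0 := by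
    intro F i j hi hij
    induction j, hij using Nat.le_induction with
    | base => exact hi
    | succ j _ ih =>
      rw [tw_succ, ih, twd_zero]
  have hcg : CompGe R ξ u := by
    intro y hy hy0 P F hF c hc
    obtain ⟨k, hk, _, hval⟩ := hex (hF.mem c) hc (hF.eig c)
    rw [hu y hy hy0 _ _ hF, hval]
    exact hT.mt_le (hgd hF) (p := (c, k)) hk
  refine ⟨u, ?_, ?_, ?_, ?_, ?_⟩
  · intro y hy hy0
    obtain ⟨F, hF⟩ := exists_dec (hR.span y hy)
    rw [hu y hy hy0 _ _ hF, hT.le_mt_iff (hgd hF) (dec_ne_zero hF hy0)]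
    intro p hp
    exact hT.le (hgd hF) hp
  · refine ldLe_of_hom' hR hcg hC.alt ?_
    rintro p hp y hy r hr t ht hp0 hy0 hr0 ht0 ⟨c₁, e1⟩ ⟨c₂, e2⟩ ⟨c₃, e3⟩ ⟨c₄, e4⟩
    by_cases h0 : J y r t p = 0
    · exact Or.inl h0
    · refine Or.inr ?_
      obtain ⟨k₁, _, f1, g1⟩ := hex hp hp0 e1
      obtain ⟨k₂, _, f2, g2⟩ := hex hy hy0 e2
      obtain ⟨k₃, _, f3, g3⟩ := hex hr hr0 e3
      obtain ⟨k₄, _, f4, g4⟩ := hex ht ht0 e4
      obtain ⟨k, hk, _, g⟩ := hex (hC.reg p hp y hy r hr t ht) h0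
        (bra_eig hC.alt hC.hom e1 e2 e3 e4)
      have h6 := hdat.tw_brk ![p, y, r, t] ![k₁, k₂, k₃, k₄] (by
        intro i
        fin_cases i
        · exact f1
        · exact f2
        · exact f3
        · exact f4)
      have h7 : ∑ i, (![k₁, k₂, k₃, k₄] : Fin 4 → ℕ) i = k₁ + k₂ + k₃ + k₄ := by
        rw [Fin.sum_univ_four]
        rfl
      rw [h7] at h6
      have h8 : tw Z x N (J y r t p) (k₁ + k₂ + k₃ + k₄) = 0 := h6
      have h9 : k + 1 ≤ k₁ + k₂ + k₃ + k₄ := by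
        by_contra hcon
        exact hk (hvan _ _ _ h8 (by omega))
      have h10 : ((k : ℝ) + 1) ≤ k₁ + k₂ + k₃ + k₄ := by exact_mod_cast h9
      rw [g, g1, g2, g3, g4]
      have e : (c₁ + c₂ + c₃ + c₄ - a) / d = c₁ / d + c₂ / d + c₃ / d + c₄ / d - a / d := by ring
      rw [e]
      linarith
  · intro F w hF hF0 hw
    obtain ⟨k, hk, _, hval⟩ := hex hF hF0 hw
    exact ⟨k, hk, hval⟩
  · intro F w hF hF0 hw hZF _
    obtain ⟨k, hk, _, hval⟩ := hex hF hF0 hw
    have h6 : tw Z x N F 1 = 0 := by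
      show Z F + ((0 : ℕ) : K) / (N : K) * (Z x / x) * F = 0
      rw [hZF]
      simp
    have hk0 : k = 0 := by
      by_contra hcon
      exact hk (hvan F 1 k h6 (by omega))
    rw [hval, hk0]
    simp
  · intro h hh0 hξh hZh
    have hξh' : ξ h = ((0 : ℝ) : ℂ) • h := by
      rw [hξh]
      simp
    obtain ⟨p, hp, q, hq, b, hq0, hqb, hpb, e⟩ := hom_frac hR hξh'
    have hp0 : p ≠ 0 := by
      rintro rfl
      exact hh0 (by rw [e, zero_div])
    have epq : p = h * q := by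
      rw [e, div_mul_cancel₀ _ hq0]
    obtain ⟨k, hk, hk1, hval⟩ := hex hq hq0 hqb
    obtain ⟨l, hl, hl1, hval'⟩ := hex hp hp0 hpb
    rw [epq, tw_mul_left hZh] at hl hl1
    have h1 : tw Z x N q l ≠ 0 := fun h2 => hl (by rw [h2, mul_zero])
    have h2 : tw Z x N q (l + 1) = 0 := (mul_eq_zero.mp hl1).resolve_left hh0
    have h3 : k = l := by
      rcases lt_trichotomy k l with h4 | h4 | h4
      · exact absurd (hvan q (k + 1) l hk1 h4) h1
      · exact h4
      · exact absurd (hvan q (l + 1) k h2 h4) hk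
    rw [e, u.val_div hp0 hq0, hval, hval', h3]
    ring

end Pool.Agent.Helper37.D4
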