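import Pool.Agent.Helper88.D4.Stmts6
import Pool.Agent.Helper12.D4.Ai

/-!
# Project D4: brackets of fractional iterates
-/

set_option autoImplicit false

namespace Pool.Agent.Helper37.D4

open Module Pool.Agent.Helper37.SD Pool.Agent.Helper88.D4 Pool.Agent.Helper20.TS

variable {K : Type} [Field K] [Algebra ℂ K]

/-! ## derivatives of determinants -/

theorem der_prod (X : Derivation ℂ K K) {ι : Type} [DecidableEq ι] (s : Finset ι) (f : ι → K) :
    X (∏ i ∈ s, f i) = ∑ i ∈ s, (∏ j ∈ s.erase i, f j) * X (f i) := by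
  induction s using Finset.induction_on with
  | empty => simp
  | insert a s ha ih =>
    rw [Finset.prod_insert ha, Derivation.leibniz, ih, Finset.sum_insert ha,
      Finset.erase_insert ha, smul_eq_mul, smul_eq_mul, Finset.mul_sum, add_comm]
    congr 1
    refine Finset.sum_congr rfl fun i hi => ?_
    have hai : a ≠ i := by
      rintro rfl
      exact ha hi
    rw [Finset.erase_insert_of_ne hai, Finset.prod_insert (fun h => ha (Finset.mem_of_mem_erase h))]
    ring

theorem der_det' {m : ℕ} (X : Derivation ℂ K K) (M : Matrix (Fin m) (Fin m) K) :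
    X M.det = ∑ k, (M.updateCol k (fun i => X (M i k))).det := by
  have h1 : ∀ k, (M.updateCol k (fun i => X (M i k))).det = ∑ σ : Equiv.Perm (Fin m),
      ((Equiv.Perm.sign σ : ℤ) : K) * ((∏ j ∈ Finset.univ.erase k, M (σ j) j) * X (M (σ k) k)) := by
    intro k
    rw [Matrix.det_apply']
    refine Finset.sum_congr rfl fun σ _ => ?_
    congr 1
    rw [← Finset.prod_erase_mul _ _ (Finset.mem_univ k)]
    congr 1
    · refine Finset.prod_congr rfl fun j hj => ?_
      rw [Matrix.updateCol_ne (Finset.ne_of_mem_erase hj)]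
    · rw [Matrix.updateCol_self]
  rw [Finset.sum_congr rfl (fun k _ => h1 k), Finset.sum_comm, Matrix.det_apply', map_sum]
  refine Finset.sum_congr rfl fun σ _ => ?_
  rw [← Finset.mul_sum, ← zsmul_eq_mul, map_zsmul, zsmul_eq_mul, der_prod]

theorem det_upd {m : ℕ} (M : Matrix (Fin m) (Fin m) K) (k : Fin m) (v : Fin m → K) :
    (M.updateCol k v).det = ∑ i, M.adjugate k i * v i := by
  rw [← Matrix.cramer_apply, Matrix.cramer_eq_adjugate_mulVec]
  rfl

/-! ## twisted derivations -/

/-- `x ^ (-n / N) D (x ^ (n / N) a)` -/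
noncomputable def twd (D : Derivation ℂ K K) (x : K) (N n : ℕ) (a : K) : K :=
  D a + ((n : K) / (N : K)) * (D x / x) * a

theorem tw_succ (Z : Derivation ℂ K K) (x : K) (N : ℕ) (F : K) (j : ℕ) :
    tw Z x N F (j + 1) = twd Z x N j (tw Z x N F j) := rfl

theorem twd_add (D : Derivation ℂ K K) (x : K) (N n : ℕ) (a b : K) :
    twd D x N n (a + b) = twd D x N n a + twd D x N n b := by
  unfold twd
  rw [map_add]
  ring

theorem twd_zero (D : Derivation ℂ K K) (x : K) (N n : ℕ) : twd D x N n 0 = 0 := by
  unfold twd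
  rw [map_zero]
  ring

/-- linearity in the derivation -/
theorem twd_lin {D : Fin 4 → Derivation ℂ K K} {E : Derivation ℂ K K} {e : Fin 4 → K}
    (h : E = ∑ i, e i • D i) (x : K) (N n : ℕ) (a : K) :
    twd E x N n a = ∑ i, e i * twd (D i) x N n a := by
  have h1 : ∀ y, E y = ∑ i, e i * D i y := by
    intro y
    conv_lhs => rw [h]
    rw [Pool.Agent.Helper12.D4.der_sum]
    exact Finset.sum_congr rfl fun i _ => rfl
  unfold twd
  rw [h1 a, h1 x, Finset.sum_div, Finset.mul_sum, Finset.sum_mul, ← Finset.sum_add_distrib]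
  refine Finset.sum_congr rfl fun i _ => ?_
  ring

/-- the matrix of the twisted derivatives -/
noncomputable def tM (D : Fin 4 → Derivation ℂ K K) (x : K) (N : ℕ) (n : Fin 4 → ℕ)
    (a : Fin 4 → K) : Matrix (Fin 4) (Fin 4) K := Matrix.of fun i j => twd (D i) x N (n j) (a j)

/-- the data -/
structure Dat (J : Bra K) (Z : Derivation ℂ K K) (x : K) (N : ℕ) (z : Fin 4 → K)
    (D : Fin 4 → Derivation ℂ K K) : Prop where
  x0 : x ≠ 0
  N0 : (N : K) ≠ 0
  z0 : brk J z ≠ 0
  dual : ∀ i j, D i (z j) = if i = j then 1 else 0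
  lin : ∀ E : Derivation ℂ K K, E = ∑ i, E (z i) • D i
  vol : ∀ g, brk J g = brk J z * dt D g
  dvz : ∀ f : Fin 4 → K, Z (brk J f) = ∑ i, brk J (Function.update f i (Z (f i))) +
    (1 / (N : K)) * (Z x / x) * brk J f
  Z0 : Z ≠ 0

section Main

variable {J : Bra K} {Z : Derivation ℂ K K} {x : K} {N : ℕ} {z : Fin 4 → K}
  {D : Fin 4 → Derivation ℂ K K}

theorem Dat.div (h : Dat J Z x N z D) : Z (brk J z) =
    (1 / (N : K)) * (Z x / x) * brk J z - brk J z * ∑ i, ⁅Z, D i⁆ (z i) := by
  have h1 : ∀ i, brk J (Function.update z i (Z (z i))) = brk J z * D i (Z (z i)) := by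
    intro i
    rw [h.vol]
    congr 1
    have e : (Matrix.of fun k l => D k (Function.update z i (Z (z i)) l)) =
        (1 : Matrix (Fin 4) (Fin 4) K).updateCol i (fun k => D k (Z (z i))) := by
      ext k l
      rw [Matrix.of_apply, Matrix.updateCol_apply]
      by_cases hl : l = i
      · subst hl
        rw [Function.update_self, if_pos rfl]
      · rw [Function.update_of_ne hl, if_neg hl, h.dual, Matrix.one_apply]
    rw [dt, e, ← Matrix.cramer_apply, Matrix.cramer_one]
    rfl
  have h2 : ∀ i, ⁅Z, D i⁆ (z i) = -D i (Z (z i)) := by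
    intro i
    rw [Derivation.commutator_apply, h.dual, if_pos rfl]
    have : Z (1 : K) = 0 := Z.map_one_eq_zero
    rw [this, zero_sub]
  rw [h.dvz z, Finset.sum_congr rfl (fun i _ => h1 i), ← Finset.mul_sum,
    Finset.sum_congr rfl (fun i _ => h2 i), Finset.sum_neg_distrib]
  ring

/-- the entries -/
theorem Dat.entry (h : Dat J Z x N z D) (E : Derivation ℂ K K) (n : ℕ) (a : K) :
    twd E x N (n + 1) (twd Z x N n a) = Z (twd E x N n a) +
      ((n : K) / (N : K)) * (Z x / x) * twd E x N n a - twd ⁅Z, E⁆ x N n a +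
      (1 / (N : K)) * (E x / x) * twd Z x N n a := by
  have hx := h.x0
  have hN := h.N0
  have hdiv : ∀ A B : Derivation ℂ K K, A (B x / x) = (x * A (B x) - B x * A x) / (x * x) := by
    intro A B
    exact der_div A (B x) x hx
  have hc : ∀ A : Derivation ℂ K K, A ((n : K) / (N : K)) = 0 := by
    intro A
    have e1 : ∀ m : ℕ, A (m : K) = 0 := fun m => A.map_natCast m
    rw [der_div A _ _ hN, e1, e1]
    simp
  unfold twd
  simp only [map_add, Derivation.leibniz, smul_eq_mul, hc, hdiv, Derivation.commutator_apply]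
  push_cast
  field_simp
  ring

/-- **the twisted derivation of a twisted bracket** -/
theorem Dat.key (h : Dat J Z x N z D) (n : Fin 4 → ℕ) (a : Fin 4 → K) :
    ∑ j, brk J z * (tM D x N (Function.update n j (n j + 1))
      (Function.update a j (twd Z x N (n j) (a j)))).det =
      twd Z x N (∑ j, n j) (brk J z * (tM D x N n a).det) := by
  set M := tM D x N n a with hM
  set A : Fin 4 → K := fun j => twd Z x N (n j) (a j) with hA
  set C : Matrix (Fin 4) (Fin 4) K := Matrix.of fun i k => ⁅Z, D i⁆ (z k) with hC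
  have hMij : ∀ i j, M i j = twd (D i) x N (n j) (a j) := fun i j => rfl
  have e1 : ∀ j, tM D x N (Function.update n j (n j + 1)) (Function.update a j (A j)) =
      M.updateCol j (fun i => twd (D i) x N (n j + 1) (A j)) := by
    intro j
    ext i l
    rw [Matrix.updateCol_apply]
    show twd (D i) x N (Function.update n j (n j + 1) l) (Function.update a j (A j) l) = _
    by_cases hl : l = j
    · subst hl
      rw [Function.update_self, Function.update_self, if_pos rfl]
    · rw [Function.update_of_ne hl, Function.update_of_ne hl, if_neg hl]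
      rfl
  have e2 : ∀ i j, twd (D i) x N (n j + 1) (A j) = Z (M i j) +
      ((n j : K) / (N : K)) * (Z x / x) * M i j - (C * M) i j +
      (1 / (N : K)) * (D i x / x) * A j := by
    intro i j
    have h1 : (C * M) i j = twd ⁅Z, D i⁆ x N (n j) (a j) := by
      rw [twd_lin (h.lin ⁅Z, D i⁆), Matrix.mul_apply]
      rfl
    rw [h1]
    exact h.entry (D i) (n j) (a j)
  have e3 : ∀ j, A j = ∑ k, Z (z k) * M k j := by
    intro j
    exact twd_lin (h.lin Z) x N (n j) (a j)
  have hZx : Z x = ∑ i, Z (z i) * D i x := by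
    conv_lhs => rw [h.lin Z]
    rw [Pool.Agent.Helper12.D4.der_sum]
    exact Finset.sum_congr rfl fun i _ => rfl
  have hadj : ∀ j l, ∑ i, M.adjugate j i * M i l = M.det * (if j = l then 1 else 0) := by
    intro j l
    have := congrFun (congrFun (Matrix.adjugate_mul M) j) l
    rw [Matrix.mul_apply, Matrix.smul_apply, Matrix.one_apply, smul_eq_mul] at this
    exact this
  have hadj' : ∀ k i, ∑ j, M k j * M.adjugate j i = M.det * (if k = i then 1 else 0) := by
    intro k i
    have := congrFun (congrFun (Matrix.mul_adjugate M) k) i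
    rw [Matrix.mul_apply, Matrix.smul_apply, Matrix.one_apply, smul_eq_mul] at this
    exact this
  -- the four sums
  have s1 : ∑ j, ∑ i, M.adjugate j i * Z (M i j) = Z M.det := by
    rw [der_det' Z M]
    exact Finset.sum_congr rfl fun j _ => (det_upd M j _).symm
  have s2 : ∑ j, ∑ i, M.adjugate j i * (((n j : K) / (N : K)) * (Z x / x) * M i j) =
      (((∑ j, n j : ℕ) : K) / (N : K)) * (Z x / x) * M.det := by
    have h1 : ∀ j, ∑ i, M.adjugate j i * (((n j : K) / (N : K)) * (Z x / x) * M i j) =
        ((n j : K) / (N : K)) * (Z x / x) * M.det := by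
      intro j
      have h2 := hadj j j
      rw [if_pos rfl, mul_one] at h2
      rw [← h2, Finset.mul_sum]
      exact Finset.sum_congr rfl fun i _ => by ring
    rw [Finset.sum_congr rfl (fun j _ => h1 j), ← Finset.sum_mul, ← Finset.sum_mul,
      ← Finset.sum_div]
    push_cast
    rfl
  have s3 : ∑ j, ∑ i, M.adjugate j i * (C * M) i j = (∑ i, ⁅Z, D i⁆ (z i)) * M.det := by
    have h1 : ∑ j, ∑ i, M.adjugate j i * (C * M) i j = (M.adjugate * (C * M)).trace := rfl
    rw [h1, Matrix.trace_mul_cycle', Matrix.trace_mul_cycle', Matrix.mul_adjugate, Matrix.mul_smul, Matrix.mul_one,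
      Matrix.trace_smul, smul_eq_mul, mul_comm]
    rfl
  have s4 : ∑ j, ∑ i, M.adjugate j i * ((1 / (N : K)) * (D i x / x) * A j) =
      (1 / (N : K)) * (Z x / x) * M.det := by
    have h1 : ∀ j i, M.adjugate j i * ((1 / (N : K)) * (D i x / x) * A j) =
        ∑ k, (1 / (N : K)) * (D i x / x) * Z (z k) * (M k j * M.adjugate j i) := by
      intro j i
      rw [e3 j, Finset.mul_sum, Finset.mul_sum]
      exact Finset.sum_congr rfl fun k _ => by ring
    rw [Finset.sum_comm]
    have h2 : ∀ i, ∑ j, M.adjugate j i * ((1 / (N : K)) * (D i x / x) * A j) =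
        (1 / (N : K)) * (D i x / x) * Z (z i) * M.det := by
      intro i
      rw [Finset.sum_congr rfl (fun j _ => h1 j i), Finset.sum_comm]
      have h3 : ∀ k, ∑ j, (1 / (N : K)) * (D i x / x) * Z (z k) * (M k j * M.adjugate j i) =
          if k = i then (1 / (N : K)) * (D i x / x) * Z (z k) * M.det else 0 := by
        intro k
        rw [← Finset.mul_sum, hadj']
        split_ifs
        · ring
        · ring
      rw [Finset.sum_congr rfl (fun k _ => h3 k), Finset.sum_ite_eq' Finset.univ i,
        if_pos (Finset.mem_univ i)]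
    rw [Finset.sum_congr rfl (fun i _ => h2 i), ← Finset.sum_mul, hZx, Finset.sum_div,
      Finset.mul_sum]
    congr 1
    exact Finset.sum_congr rfl fun i _ => by ring
  have hL : ∑ j, brk J z * (tM D x N (Function.update n j (n j + 1))
      (Function.update a j (A j))).det = brk J z * (Z M.det +
        (((∑ j, n j : ℕ) : K) / (N : K)) * (Z x / x) * M.det -
        (∑ i, ⁅Z, D i⁆ (z i)) * M.det + (1 / (N : K)) * (Z x / x) * M.det) := by
    rw [← Finset.mul_sum, ← s1, ← s2, ← s3, ← s4, ← Finset.sum_add_distrib,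
      ← Finset.sum_sub_distrib, ← Finset.sum_add_distrib]
    congr 1
    refine Finset.sum_congr rfl fun j _ => ?_
    rw [e1, det_upd, ← Finset.sum_add_distrib, ← Finset.sum_sub_distrib, ← Finset.sum_add_distrib]
    refine Finset.sum_congr rfl fun i _ => ?_
    rw [e2]
    ring
  rw [hL]
  unfold twd
  rw [Derivation.leibniz, h.div, smul_eq_mul, smul_eq_mul]
  ring

/-- iterates of twisted derivations -/
noncomputable def itw (Z : Derivation ℂ K K) (x : K) (N : ℕ) : ℕ → ℕ → K → K
  | _, 0, a => a
  | n, k + 1, a => itw Z x N (n + 1) k (twd Z x N n a)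

theorem itw_succ' (Z : Derivation ℂ K K) (x : K) (N : ℕ) (k : ℕ) :
    ∀ (n : ℕ) (a : K), itw Z x N n (k + 1) a = twd Z x N (n + k) (itw Z x N n k a) := by
  induction k with
  | zero => intro n a; rfl
  | succ k ih =>
    intro n a
    show itw Z x N (n + 1) (k + 1) (twd Z x N n a) = _
    rw [ih]
    show twd Z x N (n + 1 + k) (itw Z x N (n + 1) k (twd Z x N n a)) =
      twd Z x N (n + (k + 1)) (itw Z x N (n + 1) k (twd Z x N n a))
    congr 1
    omega

theorem itw_tw (Z : Derivation ℂ K K) (x : K) (N : ℕ) (F : K) (k : ℕ) :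
    itw Z x N 0 k F = tw Z x N F k := by
  induction k with
  | zero => rfl
  | succ k ih => rw [itw_succ', ih, tw_succ, zero_add]

theorem itw_add (Z : Derivation ℂ K K) (x : K) (N : ℕ) (k : ℕ) :
    ∀ (n : ℕ) (a b : K), itw Z x N n k (a + b) = itw Z x N n k a + itw Z x N n k b := by
  induction k with
  | zero => intro n a b; rfl
  | succ k ih =>
    intro n a b
    show itw Z x N (n + 1) k (twd Z x N n (a + b)) = _
    rw [twd_add, ih]
    rfl

theorem itw_zero (Z : Derivation ℂ K K) (x : K) (N : ℕ) (k n : ℕ) : itw Z x N n k 0 = 0 := by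
  have h := itw_add Z x N k n 0 0
  rw [add_zero] at h
  exact left_eq_add.mp h

theorem itw_sum (Z : Derivation ℂ K K) (x : K) (N : ℕ) (k n : ℕ) {ι : Type} (s : Finset ι)
    (f : ι → K) : itw Z x N n k (∑ i ∈ s, f i) = ∑ i ∈ s, itw Z x N n k (f i) := by
  classical
  induction s using Finset.induction_on with
  | empty => simp [itw_zero]
  | insert a s ha ih => rw [Finset.sum_insert ha, itw_add, ih, Finset.sum_insert ha]

/-- **the induction** -/
theorem Dat.itw_brk (h : Dat J Z x N z D) (m : ℕ) : ∀ (n : Fin 4 → ℕ) (a : Fin 4 → K)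
    (d : Fin 4 → ℕ), ∑ i, d i = m → (∀ i, itw Z x N (n i) (d i + 1) (a i) = 0) →
      itw Z x N (∑ i, n i) m (brk J z * (tM D x N n a).det) = 0 := by
  classical
  induction m with
  | zero =>
    intro n a d hd ha
    have hd0 : ∀ i, d i = 0 := fun i => by
      have := Finset.sum_eq_zero_iff.mp hd i (Finset.mem_univ i)
      exact this
    have h1 : ∀ j, twd Z x N (n j) (a j) = 0 := by
      intro j
      have := ha j
      rw [hd0 j] at this
      exact this
    have h2 : (tM D x N n a).det = 0 := by
      rw [← Matrix.exists_vecMul_eq_zero_iff]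
      refine ⟨fun i => Z (z i), ?_, ?_⟩
      · intro h3
        apply h.Z0
        rw [h.lin Z]
        refine Finset.sum_eq_zero fun i _ => ?_
        have h4 : Z (z i) = 0 := congrFun h3 i
        rw [h4, zero_smul]
      · funext j
        have h3 := twd_lin (h.lin Z) x N (n j) (a j)
        rw [h1 j] at h3
        exact h3.symm
    show brk J z * (tM D x N n a).det = 0
    rw [h2, mul_zero]
  | succ m ih =>
    intro n a d hd ha
    show itw Z x N (∑ i, n i + 1) m (twd Z x N (∑ i, n i) (brk J z * (tM D x N n a).det)) = 0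
    rw [← h.key n a, itw_sum]
    refine Finset.sum_eq_zero fun j _ => ?_
    have hn : ∑ i, n i + 1 = ∑ i, Function.update n j (n j + 1) i := by
      rw [Finset.sum_update_of_mem (Finset.mem_univ j),
        ← Finset.add_sum_erase Finset.univ n (Finset.mem_univ j), Finset.sdiff_singleton_eq_erase]
      ring
    rcases Nat.eq_zero_or_pos (d j) with hj | hj
    · have h1 : twd Z x N (n j) (a j) = 0 := by
        have := ha j
        rw [hj] at this
        exact this
      have h2 : (tM D x N (Function.update n j (n j + 1))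
          (Function.update a j (twd Z x N (n j) (a j)))).det = 0 := by
        refine Matrix.det_eq_zero_of_column_eq_zero j fun i => ?_
        show twd (D i) x N (Function.update n j (n j + 1) j)
          (Function.update a j (twd Z x N (n j) (a j)) j) = 0
        rw [Function.update_self, Function.update_self, h1, twd_zero]
      rw [h2, mul_zero, itw_zero]
    · rw [hn]
      refine ih _ _ (Function.update d j (d j - 1)) ?_ fun i => ?_
      · rw [Finset.sum_update_of_mem (Finset.mem_univ j), Finset.sdiff_singleton_eq_erase]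
        rw [← Finset.add_sum_erase Finset.univ d (Finset.mem_univ j)] at hd
        omega
      · by_cases hi : i = j
        · subst hi
          rw [Function.update_self, Function.update_self, Function.update_self]
          have h1 : d i - 1 + 1 = d i := by omega
          rw [h1]
          exact ha i
        · rw [Function.update_of_ne hi, Function.update_of_ne hi, Function.update_of_ne hi]
          exact ha i

/-- **the degree of a bracket** -/
theorem Dat.tw_brk (h : Dat J Z x N z D) (F : Fin 4 → K) (d : Fin 4 → ℕ)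
    (hF : ∀ i, tw Z x N (F i) (d i + 1) = 0) : tw Z x N (brk J F) (∑ i, d i) = 0 := by
  have h1 := h.itw_brk (∑ i, d i) (fun _ => 0) F d rfl (fun i => by
    rw [itw_tw]
    exact hF i)
  have h2 : (tM D x N (fun _ => 0) F).det = dt D F := by
    unfold dt tM twd
    congr 1
    ext i j
    simp
  rw [h2, ← h.vol] at h1
  have h3 : (∑ _i : Fin 4, 0 : ℕ) = 0 := by simp
  rw [h3, itw_tw] at h1
  exact h1

end Main

/-- existence of the data -/
theorem exists_dat {J : Bra K} {Z : Derivation ℂ K K} {x : K} {N : ℕ}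
    (ht : Algebra.trdeg ℂ K = 4) (hJ : IsAlt J) (hx : x ≠ 0) (hN : 0 < N) (hZ : Z ≠ 0)
    (hdvz : ∀ f : Fin 4 → K, Z (brk J f) = ∑ i, brk J (Function.update f i (Z (f i))) +
      (1 / (N : K)) * (Z x / x) * brk J f) :
    ∃ (z : Fin 4 → K) (D : Fin 4 → Derivation ℂ K K), Dat J Z x N z D := by
  have hc0 : CharZero K := Pool.Agent.Helper12.D4.char0 K
  obtain ⟨p, y, r, w, hne⟩ := hJ.ne
  have hz : brk J ![p, y, r, w] ≠ 0 := hne
  obtain ⟨_, h2, _⟩ := Pool.Agent.Helper12.D4.s_AI K J ht hJ
  obtain ⟨h3, h4⟩ := h2 _ hz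
  refine ⟨![p, y, r, w], dfr J ![p, y, r, w], hx, ?_, hz, h3, h4, ?_, hdvz, hZ⟩
  · exact_mod_cast hN.ne'
  · intro g
    have h5 := Pool.Agent.Helper12.D4.s_JD K J ht hJ (dfr J ![p, y, r, w]) ![p, y, r, w] g
    have h6 : dt (dfr J ![p, y, r, w]) ![p, y, r, w] = 1 := by
      have e : (Matrix.of fun i j => dfr J ![p, y, r, w] i (![p, y, r, w] j)) =
          (1 : Matrix (Fin 4) (Fin 4) K) := by
        ext i j
        rw [Matrix.of_apply, h3, Matrix.one_apply]
      rw [dt, e, Matrix.det_one]
    rw [h6, mul_one] at h5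
    exact h5.symm

end Pool.Agent.Helper37.D4
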