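import Pool.Agent.Helper37.D4.DegA
import Pool.Agent.Helper37.Q4.VT

/-!
# Project D4: the valuation `wt / d - deg`
-/

set_option autoImplicit false

namespace Pool.Agent.Helper37.D4

open Module Pool.Agent.Helper37.SD Pool.Agent.Helper37.Q4 Pool.Agent.Helper88.D4
  Pool.Agent.Helper20.TS

variable {K : Type} [Field K] [Algebra ℂ K]

/-! ## log discrepancies -/

section Ext

variable {R : Subalgebra ℂ K} {ξ : Derivation ℂ K K} {w : RVal K}

/-- the values of the components are not smaller -/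
def CompGe (R : Subalgebra ℂ K) (ξ : Derivation ℂ K K) (w : RVal K) : Prop :=
  ∀ x ∈ R, x ≠ 0 → ∀ (P : ℝ → Prop) (F : ℝ →₀ K), IsDec (ξ : K →ₗ[ℂ] K) (RS R) P F x →
    ∀ c, F c ≠ 0 → w.val x ≤ w.val (F c)

theorem ge_of_hom' (h : IsCone R ξ) (hw : CompGe R ξ w) {D : Derivation ℂ K K} {κ : ℝ}
    (hD : ∀ x ∈ R, x ≠ 0 → ∀ c : ℝ, ξ x = (c : ℂ) • x → w.Ge (w.val x + κ) (D x)) {x : K}
    (hx : x ≠ 0) : w.Ge (w.val x + κ) (D x) := by
  refine ge_frac h.frac (fun x hx hx0 => ?_) hx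
  obtain ⟨F, hF⟩ := exists_dec (h.span x hx)
  have e : D x = ∑ c ∈ F.support, D (F c) := by
    conv_lhs => rw [← hF.sum]
    rw [Finsupp.sum, map_sum]
  rw [e]
  refine w.ge_sum _ _ fun c hc => ?_
  have hc0 := Finsupp.mem_support_iff.mp hc
  have h1 := hD (F c) (hF.mem c) hc0 c (hF.eig c)
  have h2 : w.val x ≤ w.val (F c) := hw x hx hx0 _ F hF c hc0
  exact w.ge_mono (by linarith) h1

theorem ldLe_of_hom' (h : IsCone R ξ) (hw : CompGe R ξ w) {J : Bra K} (hJ : IsAlt J) {c : ℝ}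
    (hh : ∀ x ∈ R, ∀ y ∈ R, ∀ z ∈ R, ∀ t ∈ R, x ≠ 0 → y ≠ 0 → z ≠ 0 → t ≠ 0 →
      (∃ c : ℝ, ξ x = (c : ℂ) • x) → (∃ c : ℝ, ξ y = (c : ℂ) • y) →
      (∃ c : ℝ, ξ z = (c : ℂ) • z) → (∃ c : ℝ, ξ t = (c : ℂ) • t) →
      w.Ge (w.val x + w.val y + w.val z + w.val t - c) (J y z t x)) : LDLe J w c := by
  have s1 : ∀ x : K, ∀ y ∈ R, ∀ z ∈ R, ∀ t ∈ R, x ≠ 0 → y ≠ 0 → z ≠ 0 → t ≠ 0 →
      (∃ c : ℝ, ξ y = (c : ℂ) • y) → (∃ c : ℝ, ξ z = (c : ℂ) • z) →
      (∃ c : ℝ, ξ t = (c : ℂ) • t) →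
      w.Ge (w.val x + w.val y + w.val z + w.val t - c) (J y z t x) := by
    intro x y hy z hz t ht hx0 hy0 hz0 ht0 e2 e3 e4
    have h1 := ge_of_hom' h hw (D := J y z t) (κ := w.val y + w.val z + w.val t - c)
      (fun x hx hx0 c' hc' => by
        have h2 := hh x hx y hy z hz t ht hx0 hy0 hz0 ht0 ⟨c', hc'⟩ e2 e3 e4
        have e : w.val x + (w.val y + w.val z + w.val t - c) =
            w.val x + w.val y + w.val z + w.val t - c := by ring
        rwa [e]) hx0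
    have e : w.val x + (w.val y + w.val z + w.val t - c) =
        w.val x + w.val y + w.val z + w.val t - c := by ring
    rwa [e] at h1
  have s2 : ∀ x y : K, ∀ z ∈ R, ∀ t ∈ R, x ≠ 0 → y ≠ 0 → z ≠ 0 → t ≠ 0 →
      (∃ c : ℝ, ξ z = (c : ℂ) • z) → (∃ c : ℝ, ξ t = (c : ℂ) • t) →
      w.Ge (w.val x + w.val y + w.val z + w.val t - c) (J y z t x) := by
    intro x y z hz t ht hx0 hy0 hz0 ht0 e3 e4
    have h1 := ge_of_hom' h hw (D := -J x z t) (κ := w.val x + w.val z + w.val t - c)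
      (fun y hy hy0 c' hc' => by
        have h2 := s1 x y hy z hz t ht hx0 hy0 hz0 ht0 ⟨c', hc'⟩ e3 e4
        rw [IsAlt.slot2 hJ] at h2
        have e : w.val y + (w.val x + w.val z + w.val t - c) =
            w.val x + w.val y + w.val z + w.val t - c := by ring
        rwa [e]) hy0
    rw [IsAlt.slot2 hJ]
    have e : w.val y + (w.val x + w.val z + w.val t - c) =
        w.val x + w.val y + w.val z + w.val t - c := by ring
    rwa [e] at h1
  have s3 : ∀ x y z : K, ∀ t ∈ R, x ≠ 0 → y ≠ 0 → z ≠ 0 → t ≠ 0 →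
      (∃ c : ℝ, ξ t = (c : ℂ) • t) →
      w.Ge (w.val x + w.val y + w.val z + w.val t - c) (J y z t x) := by
    intro x y z t ht hx0 hy0 hz0 ht0 e4
    have h1 := ge_of_hom' h hw (D := J x y t) (κ := w.val x + w.val y + w.val t - c)
      (fun z hz hz0 c' hc' => by
        have h2 := s2 x y z hz t ht hx0 hy0 hz0 ht0 ⟨c', hc'⟩ e4
        rw [IsAlt.slot3 hJ] at h2
        have e : w.val z + (w.val x + w.val y + w.val t - c) =
            w.val x + w.val y + w.val z + w.val t - c := by ring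
        rwa [e]) hz0
    rw [IsAlt.slot3 hJ]
    have e : w.val z + (w.val x + w.val y + w.val t - c) =
        w.val x + w.val y + w.val z + w.val t - c := by ring
    rwa [e] at h1
  intro x y z t hx0 hy0 hz0 ht0
  have h1 := ge_of_hom' h hw (D := -J x y z) (κ := w.val x + w.val y + w.val z - c)
    (fun t ht ht0 c' hc' => by
      have h2 := s3 x y z t ht hx0 hy0 hz0 ht0 ⟨c', hc'⟩
      rw [IsAlt.slot4 hJ] at h2
      have e : w.val t + (w.val x + w.val y + w.val z - c) =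
          w.val x + w.val y + w.val z + w.val t - c := by ring
      rwa [e]) ht0
  rw [IsAlt.slot4 hJ]
  have e : w.val t + (w.val x + w.val y + w.val z - c) =
      w.val x + w.val y + w.val z + w.val t - c := by ring
  rwa [e] at h1

end Ext

/-! ## the valuation -/

/-- the data of the iterates -/
structure TwD (R : Subalgebra ℂ K) (ξ : Derivation ℂ K K) (d : ℝ) (T : K → ℕ → K) : Prop where
  pos : 0 < d
  t0 : ∀ F, T F 0 = F
  van : ∀ F ∈ R, ∀ (w : ℝ), ξ F = (w : ℂ) • F → ∀ j : ℕ, w < j * d → T F j = 0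
  add : ∀ F G j, T (F + G) j = T F j + T G j
  mul : ∀ F G j, T (F * G) j = ∑ i ∈ Finset.range (j + 1), (j.choose i : K) * T F i * T G (j - i)

/-- the support -/
def Sup (T : K → ℕ → K) (F : ℝ →₀ K) : Set (ℝ × ℕ) := {p | T (F p.1) p.2 ≠ 0}

/-- the value of a family -/
noncomputable def mt (d : ℝ) (T : K → ℕ → K) (F : ℝ →₀ K) : ℝ :=
  sInf ((fun p : ℝ × ℕ => p.1 / d - p.2) '' Sup T F)

/-- the members of a family are homogeneous elements of the ring -/
def Gd (R : Subalgebra ℂ K) (ξ : Derivation ℂ K K) (F : ℝ →₀ K) : Prop :=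
  ∀ c, F c ∈ R ∧ ξ (F c) = (c : ℂ) • F c

section Val

variable {R : Subalgebra ℂ K} {ξ : Derivation ℂ K K} {d : ℝ} {T : K → ℕ → K}

theorem TwD.zero (h : TwD R ξ d T) (j : ℕ) : T 0 j = 0 := by
  have h1 := h.add 0 0 j
  rw [add_zero] at h1
  exact left_eq_add.mp h1

theorem TwD.sum (h : TwD R ξ d T) {ι : Type} (s : Finset ι) (f : ι → K) (j : ℕ) :
    T (∑ i ∈ s, f i) j = ∑ i ∈ s, T (f i) j := by
  classical
  induction s using Finset.induction_on with
  | empty => simp [h.zero]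
  | insert a s ha ih => rw [Finset.sum_insert ha, h.add, ih, Finset.sum_insert ha]

theorem TwD.le (h : TwD R ξ d T) {F : ℝ →₀ K} (hF : Gd R ξ F) {p : ℝ × ℕ} (hp : p ∈ Sup T F) :
    0 ≤ p.1 / d - p.2 := by
  have h1 : ¬ (p.1 < p.2 * d) := fun h2 => hp (h.van _ (hF p.1).1 p.1 (hF p.1).2 p.2 h2)
  rw [not_lt] at h1
  have h2 : (p.2 : ℝ) ≤ p.1 / d := by rwa [le_div_iff₀ h.pos]
  linarith

theorem TwD.finite (h : TwD R ξ d T) {F : ℝ →₀ K} (hF : Gd R ξ F) : (Sup T F).Finite := by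
  classical
  have h1 : Sup T F ⊆ ⋃ c ∈ F.support, ((fun j : ℕ => (c, j)) '' {j : ℕ | j ≤ ⌊c / d⌋₊}) := by
    intro p hp
    have hp1 := h.le hF hp
    have hc : F p.1 ≠ 0 := by
      intro h2
      apply hp
      rw [h2]
      exact h.zero _
    rw [Set.mem_iUnion₂]
    refine ⟨p.1, Finsupp.mem_support_iff.mpr hc, p.2, ?_, rfl⟩
    show p.2 ≤ ⌊p.1 / d⌋₊
    exact Nat.le_floor (by linarith)
  refine Set.Finite.subset ?_ h1
  refine Set.Finite.biUnion (Finset.finite_toSet _) fun c _ => ?_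
  exact (Set.finite_le_nat _).image _

theorem TwD.exists_min (h : TwD R ξ d T) {F : ℝ →₀ K} (hF : Gd R ξ F) (hF0 : F ≠ 0) :
    ∃ p ∈ Sup T F, mt d T F = p.1 / d - p.2 ∧ (∀ q ∈ Sup T F, mt d T F ≤ q.1 / d - q.2) ∧
      ∀ q ∈ Sup T F, q.1 / d - q.2 = mt d T F → p.1 ≤ q.1 := by
  classical
  obtain ⟨c, hc⟩ : ∃ c, F c ≠ 0 := by
    by_contra hcon
    push Not at hcon
    exact hF0 (Finsupp.ext hcon)
  have hne : (Sup T F).Nonempty := ⟨(c, 0), by
    show T (F c) 0 ≠ 0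
    rw [h.t0]
    exact hc⟩
  set S := (h.finite hF).toFinset with hS
  have hmem : ∀ p, p ∈ S ↔ p ∈ Sup T F := fun p => Set.Finite.mem_toFinset _
  have hSne : S.Nonempty := by
    obtain ⟨p, hp⟩ := hne
    exact ⟨p, (hmem p).mpr hp⟩
  obtain ⟨p₀, hp₀, hmin⟩ := S.exists_min_image (fun p : ℝ × ℕ => p.1 / d - p.2) hSne
  have hS' : (S.filter fun p : ℝ × ℕ => p.1 / d - p.2 = p₀.1 / d - p₀.2).Nonempty :=
    ⟨p₀, Finset.mem_filter.mpr ⟨hp₀, rfl⟩⟩
  obtain ⟨p, hp, hmin'⟩ := (S.filter fun p : ℝ × ℕ => p.1 / d - p.2 =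
    p₀.1 / d - p₀.2).exists_min_image (fun p : ℝ × ℕ => p.1) hS'
  rw [Finset.mem_filter] at hp
  have hval : mt d T F = p₀.1 / d - p₀.2 := by
    refine IsLeast.csInf_eq ⟨⟨p₀, (hmem p₀).mp hp₀, rfl⟩, ?_⟩
    rintro _ ⟨q, hq, rfl⟩
    exact hmin q ((hmem q).mpr hq)
  refine ⟨p, (hmem p).mp hp.1, by rw [hval, hp.2], fun q hq => ?_, fun q hq hqe => ?_⟩
  · rw [hval]
    exact hmin q ((hmem q).mpr hq)
  · rw [hval] at hqe
    exact hmin' q (Finset.mem_filter.mpr ⟨(hmem q).mpr hq, hqe⟩)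

theorem TwD.mt_le (h : TwD R ξ d T) {F : ℝ →₀ K} (hF : Gd R ξ F) {p : ℝ × ℕ}
    (hp : p ∈ Sup T F) : mt d T F ≤ p.1 / d - p.2 := by
  have hF0 : F ≠ 0 := by
    rintro rfl
    apply hp
    exact h.zero _
  obtain ⟨_, _, _, h1, _⟩ := h.exists_min hF hF0
  exact h1 p hp

theorem TwD.le_mt_iff (h : TwD R ξ d T) {F : ℝ →₀ K} (hF : Gd R ξ F) (hF0 : F ≠ 0) (m : ℝ) :
    m ≤ mt d T F ↔ ∀ p ∈ Sup T F, m ≤ p.1 / d - p.2 := by
  constructor
  · intro h1 p hp
    exact h1.trans (h.mt_le hF hp)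
  · intro h1
    obtain ⟨p, hp, he, _⟩ := h.exists_min hF hF0
    rw [he]
    exact h1 p hp

theorem TwD.mt_add (h : TwD R ξ d T) {F G : ℝ →₀ K} (hF : Gd R ξ F) (hG : Gd R ξ G)
    (hFG : F + G ≠ 0) : min (mt d T F) (mt d T G) ≤ mt d T (F + G) := by
  have hg : Gd R ξ (F + G) := by
    intro c
    rw [Finsupp.add_apply]
    exact ⟨R.add_mem (hF c).1 (hG c).1, by rw [map_add, (hF c).2, (hG c).2, smul_add]⟩
  rw [h.le_mt_iff hg hFG]
  intro p hp
  have hp' : T (F p.1) p.2 + T (G p.1) p.2 ≠ 0 := by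
    have h1 : T ((F + G) p.1) p.2 ≠ 0 := hp
    rwa [Finsupp.add_apply, h.add] at h1
  by_cases h1 : T (F p.1) p.2 = 0
  · have h2 : p ∈ Sup T G := by
      intro h3
      rw [h1, h3, add_zero] at hp'
      exact hp' rfl
    exact (min_le_right _ _).trans (h.mt_le hG h2)
  · exact (min_le_left _ _).trans (h.mt_le hF h1)

theorem TwD.mt_mul (h : TwD R ξ d T) (hc : CharZero K) {F G H : ℝ →₀ K} (hF : Gd R ξ F)
    (hG : Gd R ξ G) (hHg : Gd R ξ H) (hF0 : F ≠ 0) (hG0 : G ≠ 0)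
    (hH : ∀ e, H e = ∑ p ∈ F.support ×ˢ G.support, if p.1 + p.2 = e then F p.1 * G p.2 else 0) :
    H ≠ 0 ∧ mt d T H = mt d T F + mt d T G := by
  classical
  obtain ⟨p, hp, hpe, hpm, hpl⟩ := h.exists_min hF hF0
  obtain ⟨q, hq, hqe, hqm, hql⟩ := h.exists_min hG hG0
  have hT : ∀ e j, T (H e) j = ∑ r ∈ F.support ×ˢ G.support, if r.1 + r.2 = e then
      ∑ i ∈ Finset.range (j + 1), (j.choose i : K) * T (F r.1) i * T (G r.2) (j - i) else 0 := by
    intro e j
    rw [hH, h.sum]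
    refine Finset.sum_congr rfl fun r _ => ?_
    split_ifs
    · exact h.mul _ _ _
    · exact h.zero _
  have hmem : ∀ {r : ℝ × ℕ}, r ∈ Sup T F → r.1 ∈ F.support := by
    intro r hr
    rw [Finsupp.mem_support_iff]
    intro h1
    apply hr
    rw [h1]
    exact h.zero _
  have hmem' : ∀ {r : ℝ × ℕ}, r ∈ Sup T G → r.1 ∈ G.support := by
    intro r hr
    rw [Finsupp.mem_support_iff]
    intro h1
    apply hr
    rw [h1]
    exact h.zero _
  -- the leading term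
  have huniq : ∀ (r s : ℝ) (i : ℕ), i ≤ p.2 + q.2 → r + s = p.1 + q.1 → (r, i) ∈ Sup T F →
      (s, p.2 + q.2 - i) ∈ Sup T G → r = p.1 ∧ s = q.1 ∧ i = p.2 := by
    intro r s i hi hrs h1 h2
    have e1 := hpm _ h1
    have e2 := hqm _ h2
    have e3 : ((p.2 + q.2 - i : ℕ) : ℝ) = p.2 + q.2 - i := by
      rw [Nat.cast_sub hi]
      push_cast
      ring
    simp only [e3] at e1 e2
    have e4 : r / d + s / d = p.1 / d + q.1 / d := by
      rw [← add_div, hrs, add_div]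
    have e5 : r / d - i = mt d T F := by linarith
    have e6 : s / d - (p.2 + q.2 - i) = mt d T G := by linarith
    have e7 := hpl _ h1 e5
    have e8 := hql (s, p.2 + q.2 - i) h2 (by
      simp only [e3]
      exact e6)
    simp only at e7 e8
    have e9 : r = p.1 := by linarith
    have e10 : s = q.1 := by linarith
    refine ⟨e9, e10, ?_⟩
    rw [e9] at e5
    have e11 : (i : ℝ) = p.2 := by linarith
    exact_mod_cast e11
  have hlead : T (H (p.1 + q.1)) (p.2 + q.2) ≠ 0 := by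
    rw [hT, Finset.sum_eq_single (p.1, q.1)]
    · rw [if_pos rfl, Finset.sum_eq_single p.2]
      · have e1 : p.2 + q.2 - p.2 = q.2 := by omega
        rw [e1]
        refine mul_ne_zero (mul_ne_zero ?_ hp) hq
        have h1 : 0 < (p.2 + q.2).choose p.2 := Nat.choose_pos (by omega)
        exact_mod_cast h1.ne'
      · intro i hi hne
        rw [Finset.mem_range] at hi
        by_contra hcon
        have h1 : T (F p.1) i ≠ 0 := fun h2 => hcon (by rw [h2]; ring)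
        have h2 : T (G q.1) (p.2 + q.2 - i) ≠ 0 := fun h3 => hcon (by rw [h3]; ring)
        exact hne (huniq p.1 q.1 i (by omega) rfl h1 h2).2.2
      · intro h1
        exact absurd (Finset.mem_range.mpr (by omega)) h1
    · rintro ⟨r, s⟩ _ hne
      split_ifs with hrs
      · refine Finset.sum_eq_zero fun i hi => ?_
        rw [Finset.mem_range] at hi
        by_contra hcon
        have h1 : T (F r) i ≠ 0 := fun h2 => hcon (by rw [h2]; ring)
        have h2 : T (G s) (p.2 + q.2 - i) ≠ 0 := fun h3 => hcon (by rw [h3]; ring)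
        obtain ⟨h3, h4, _⟩ := huniq r s i (by omega) hrs h1 h2
        exact hne (Prod.ext h3 h4)
      · rfl
    · intro h1
      have h2 : (p.1, q.1) ∈ F.support ×ˢ G.support :=
        Finset.mem_product.mpr ⟨hmem hp, hmem' hq⟩
      exact absurd h2 h1
  have hH0 : H ≠ 0 := by
    rintro rfl
    exact hlead (h.zero _)
  refine ⟨hH0, le_antisymm ?_ ?_⟩
  · have h1 := h.mt_le hHg (p := (p.1 + q.1, p.2 + q.2)) hlead
    simp only at h1
    rw [hpe, hqe]
    push_cast at h1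
    rw [add_div] at h1
    linarith
  · rw [h.le_mt_iff hHg hH0]
    rintro ⟨e, j⟩ hej
    have hej' : T (H e) j ≠ 0 := hej
    rw [hT] at hej'
    obtain ⟨⟨r, s⟩, _, hrs⟩ := Finset.exists_ne_zero_of_sum_ne_zero hej'
    simp only at hrs
    split_ifs at hrs with he
    · obtain ⟨i, hi, hi0⟩ := Finset.exists_ne_zero_of_sum_ne_zero hrs
      rw [Finset.mem_range] at hi
      have h1 : T (F r) i ≠ 0 := fun h2 => hi0 (by rw [h2]; ring)
      have h2 : T (G s) (j - i) ≠ 0 := fun h3 => hi0 (by rw [h3]; ring)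
      have e1 := hpm (r, i) h1
      have e2 := hqm (s, j - i) h2
      simp only at e1 e2
      rw [Nat.cast_sub (by omega)] at e2
      simp only
      rw [← he, add_div]
      linarith
    · exact absurd rfl hrs

/-- **the valuation** -/
theorem TwD.exists_val (h : TwD R ξ d T) (hR : IsCone R ξ) (hc : CharZero K) :
    ∃ u : RVal K, ∀ x ∈ R, x ≠ 0 → ∀ (P : ℝ → Prop) (F : ℝ →₀ K),
      IsDec (ξ : K →ₗ[ℂ] K) (RS R) P F x → u.val x = mt d T F := by
  classical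
  have hd : ∀ x : K, ∃ F : ℝ →₀ K, x ∈ R →
      IsDec (ξ : K →ₗ[ℂ] K) (RS R) (fun c => 0 ≤ c) F x := by
    intro x
    by_cases hx : x ∈ R
    · obtain ⟨F, hF⟩ := exists_dec (hR.span x hx)
      exact ⟨F, fun _ => hF⟩
    · exact ⟨0, fun h1 => absurd h1 hx⟩
  choose F hF using hd
  have hgd : ∀ {P : ℝ → Prop} {G : ℝ →₀ K} {x : K}, IsDec (ξ : K →ₗ[ℂ] K) (RS R) P G x →
      Gd R ξ G := fun hG c => ⟨hG.mem c, hG.eig c⟩
  obtain ⟨w, hw⟩ := exists_extend hR.frac (fun x => mt d T (F x)) (by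
    intro x hx y hy hx0 hy0
    obtain ⟨H, hH, hHe⟩ := dec_mul (hF x hx) (hF y hy)
    have h1 := h.mt_mul hc (hgd (hF x hx)) (hgd (hF y hy)) (hgd hH) (dec_ne_zero (hF x hx) hx0)
      (dec_ne_zero (hF y hy) hy0) hHe
    have h2 : F (x * y) = H := (hF (x * y) (R.mul_mem hx hy)).unique hH
    show mt d T (F (x * y)) = _
    rw [h2]
    exact h1.2) (by
    intro x hx y hy hx0 hy0 hxy
    have h1 := hF x hx
    have h2 := hF y hy
    have h3 : IsDec (ξ : K →ₗ[ℂ] K) (RS R) (fun _ => True) (F x + F y) (x + y) := by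
      refine ⟨fun c => ?_, fun c => ?_, fun _ _ => trivial, ?_⟩
      · rw [Finsupp.add_apply, map_add, h1.eig, h2.eig, smul_add]
      · rw [Finsupp.add_apply]
        exact Submodule.add_mem _ (h1.mem c) (h2.mem c)
      · rw [Finsupp.sum_add_index' (fun _ => rfl) (fun _ _ _ => rfl), h1.sum, h2.sum]
    have h4 : F (x + y) = F x + F y := (hF (x + y) (R.add_mem hx hy)).unique h3
    show min (mt d T (F x)) (mt d T (F y)) ≤ mt d T (F (x + y))
    rw [h4]
    exact h.mt_add (hgd h1) (hgd h2) (dec_ne_zero h3 hxy)) (by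
    intro z hz
    have h0 : algebraMap ℂ K z ≠ 0 := (map_ne_zero _).mpr hz
    have hz1 : ξ (algebraMap ℂ K z) = ((0 : ℝ) : ℂ) • algebraMap ℂ K z := by
      rw [Derivation.map_algebraMap]
      simp
    have h1 : IsDec (ξ : K →ₗ[ℂ] K) ⊤ (fun c => c = 0) (Finsupp.single 0 (algebraMap ℂ K z))
        (algebraMap ℂ K z) := isDec_single hz1
    have h2 : F (algebraMap ℂ K z) = Finsupp.single 0 (algebraMap ℂ K z) :=
      (hF _ (R.algebraMap_mem z)).unique h1
    show mt d T (F (algebraMap ℂ K z)) = 0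
    have hg := hgd (hF _ (R.algebraMap_mem z))
    obtain ⟨p, hp, he, _⟩ := h.exists_min hg (dec_ne_zero (hF _ (R.algebraMap_mem z)) h0)
    have hp' : T (F (algebraMap ℂ K z) p.1) p.2 ≠ 0 := hp
    rw [h2] at hp'
    have hp1 : p.1 = 0 := by
      by_contra hcon
      rw [Finsupp.single_eq_of_ne hcon, h.zero] at hp'
      exact hp' rfl
    have hle := h.le hg hp
    rw [hp1, zero_div] at hle
    have hp2 : (p.2 : ℝ) = 0 := by
      have : (0 : ℝ) ≤ p.2 := Nat.cast_nonneg _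
      linarith
    rw [he, hp1, hp2]
    simp)
  refine ⟨w, fun x hx hx0 P G hG => ?_⟩
  rw [hw x hx hx0, (hF x hx).unique hG]

end Val

/-- **(DEG)** -/
theorem s_DEG (hTW : S_TW) (hDVZ : S_DVZ) : S_DEG := by
  intro K _ _ R ξ J a hC Z x N b ζ hZ hcomp hx hζ hd
  classical
  have hc0 : CharZero K := Pool.Agent.Helper12.D4.char0 K
  have hR : IsCone R ξ := hC.toIsCone
  obtain ⟨_, _, h3, h4, h5⟩ := hTW K R ξ hR hC.normal Z x N b ζ hcomp hx hζ
  set d : ℝ := -(b / N + ζ) with hdd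
  have hT : TwD R ξ d (tw Z x N) := ⟨hd, fun _ => rfl, h3, h4, h5⟩
  obtain ⟨z, D, hdat⟩ := exists_dat hC.trdeg hC.alt hcomp.ne hcomp.pos hZ
    (hDVZ K R ξ J a hC Z x N b ζ hcomp hx hζ hd)
  obtain ⟨u, hu⟩ := hT.exists_val hR hc0
  have hgd : ∀ {P : ℝ → Prop} {G : ℝ →₀ K} {x : K}, IsDec (ξ : K →ₗ[ℂ] K) (RS R) P G x →
      Gd R ξ G := fun hG c => ⟨hG.mem c, hG.eig c⟩
  -- homogeneous elements
  have hsing : ∀ {F : K} {w : ℝ}, F ∈ R → ξ F = (w : ℂ) • F →
      IsDec (ξ : K →ₗ[ℂ] K) (RS R) (fun _ => True) (Finsupp.single w F) F := by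
    intro F w hF hw
    have h2 := isDec_single (A := (ξ : K →ₗ[ℂ] K)) hw
    refine ⟨h2.eig, fun b => ?_, fun _ _ => trivial, h2.sum⟩
    by_cases hb : w = b
    · subst hb
      rw [Finsupp.single_eq_same]
      exact hF
    · rw [Finsupp.single_eq_of_ne (Ne.symm hb)]
      exact Submodule.zero_mem _
  have hle : ∀ {F : K} {w : ℝ}, F ∈ R → F ≠ 0 → ξ F = (w : ℂ) • F → ∀ j, tw Z x N F j ≠ 0 →
      u.val F ≤ w / d - j := by
    intro F w hF hF0 hw j hj
    rw [hu F hF hF0 _ _ (hsing hF hw)]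
    refine hT.mt_le (hgd (hsing hF hw)) (p := (w, j)) ?_
    show tw Z x N (Finsupp.single w F w) j ≠ 0
    rwa [Finsupp.single_eq_same]
  have hex : ∀ {F : K} {w : ℝ}, F ∈ R → F ≠ 0 → ξ F = (w : ℂ) • F →
      ∃ k, tw Z x N F k ≠ 0 ∧ tw Z x N F (k + 1) = 0 ∧ u.val F = w / d - k := by
    intro F w hF hF0 hw
    have hdec := hsing hF hw
    obtain ⟨p, hp, he, _⟩ := hT.exists_min (hgd hdec) (dec_ne_zero hdec hF0)
    have hp' : tw Z x N (Finsupp.single w F p.1) p.2 ≠ 0 := hp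
    have hp1 : p.1 = w := by
      by_contra hcon
      rw [Finsupp.single_eq_of_ne hcon, hT.zero] at hp'
      exact hp' rfl
    rw [hp1, Finsupp.single_eq_same] at hp'
    have hval : u.val F = w / d - p.2 := by
      rw [hu F hF hF0 _ _ hdec, he, hp1]
    refine ⟨p.2, hp', ?_, hval⟩
    by_contra hcon
    have h6 := hle hF hF0 hw _ hcon
    rw [hval] at h6
    push_cast at h6
    linarith
  have hvan : ∀ (F : K) (i j : ℕ), tw Z x N F i = 0 → i ≤ j → tw Z x N F j = 0 := by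
    intro F i j hi hij
    induction j, hij using Nat.le_induction with
    | base => exact hi
    | succ j _ ih =>
      rw [tw_succ, ih, twd_zero]
  have hcg : CompGe R ξ u := by
    intro y hy hy0 P F hF c hc
    obtain ⟨k, hk, _, hval⟩ := hex (hF.mem c) hc (hF.eig c)
    rw [hu y hy hy0 _ _ hF, hval]
    exact hT.mt_le (hgd hF) (p := (c, k)) hk
  refine ⟨u, ?_, ?_, ?_⟩
  · intro y hy hy0
    obtain ⟨F, hF⟩ := exists_dec (hR.span y hy)
    rw [hu y hy hy0 _ _ hF, hT.le_mt_iff (hgd hF) (dec_ne_zero hF hy0)]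
    intro p hp
    exact hT.le (hgd hF) hp
  · refine ldLe_of_hom' hR hcg hC.alt ?_
    rintro p hp y hy r hr t ht hp0 hy0 hr0 ht0 ⟨c₁, e1⟩ ⟨c₂, e2⟩ ⟨c₃, e3⟩ ⟨c₄, e4⟩
    by_cases h0 : J y r t p = 0
    · exact Or.inl h0
    · refine Or.inr ?_
      obtain ⟨k₁, _, f1, g1⟩ := hex hp hp0 e1
      obtain ⟨k₂, _, f2, g2⟩ := hex hy hy0 e2
      obtain ⟨k₃, _, f3, g3⟩ := hex hr hr0 e3
      obtain ⟨k₄, _, f4, g4⟩ := hex ht ht0 e4
      obtain ⟨k, hk, _, g⟩ := hex (hC.reg p hp y hy r hr t ht) h0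
        (bra_eig hC.alt hC.hom e1 e2 e3 e4)
      have h6 := hdat.tw_brk ![p, y, r, t] ![k₁, k₂, k₃, k₄] (by
        intro i
        fin_cases i
        · exact f1
        · exact f2
        · exact f3
        · exact f4)
      have h7 : ∑ i, (![k₁, k₂, k₃, k₄] : Fin 4 → ℕ) i = k₁ + k₂ + k₃ + k₄ := by
        rw [Fin.sum_univ_four]
        rfl
      rw [h7] at h6
      have h8 : tw Z x N (J y r t p) (k₁ + k₂ + k₃ + k₄) = 0 := h6
      have h9 : k + 1 ≤ k₁ + k₂ + k₃ + k₄ := by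
        by_contra hcon
        exact hk (hvan _ _ _ h8 (by omega))
      have h10 : ((k : ℝ) + 1) ≤ k₁ + k₂ + k₃ + k₄ := by exact_mod_cast h9
      rw [g, g1, g2, g3, g4]
      have e : (c₁ + c₂ + c₃ + c₄ - a) / d = c₁ / d + c₂ / d + c₃ / d + c₄ / d - a / d := by ring
      rw [e]
      linarith
  · intro F w hF hF0 hw hZF
    obtain ⟨k, hk, _, hval⟩ := hex hF hF0 hw
    have h6 : tw Z x N F 1 = 0 := by
      show Z F + ((0 : ℕ) : K) / (N : K) * (Z x / x) * F = 0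
      rw [hZF]
      simp
    have hk0 : k = 0 := by
      by_contra hcon
      exact hk (hvan F 1 k h6 (by omega))
    rw [hval, hk0]
    simp

end Pool.Agent.Helper37.D4
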