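import Pool.Agent.Helper37.Q4.VT
import Pool.Agent.Helper88.D4.Stmts

set_option autoImplicit false

namespace Pool.Agent.Helper37.D4

open Pool.Agent.Helper88.D4

theorem s_T0 : S_T0 := Pool.Agent.Helper37.Q4.T0

theorem s_V3 : S_V3 := Pool.Agent.Helper37.Q4.V3

end Pool.Agent.Helper37.D4
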