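import Pool.Agent.Helper37.Q4.DirW
import Pool.Agent.Helper37.D4.T0
import Pool.Agent.Helper88.D4.Stmts5
import Pool.Agent.Helper88.D4.CM

/-!
# Project D4: the weight of the volume form is positive on the dual cone (S_INT)

For `ρ` in the dual cone and `t > 0` the derivation `ξ + t ∑ i, ρ i • H i` is a Reeb field; its
valuation has log discrepancy at most `a + t ρ.w₀`, and T0 for `t → ∞` gives the inequality.
-/

set_option autoImplicit false

namespace Pool.Agent.Helper37.D4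

open Module Filter Topology Pool.Agent.Helper37.SD Pool.Agent.Helper88.D4 Pool.Agent.Helper37.Q4

variable {K : Type} [Field K] [Algebra ℂ K] {R : Subalgebra ℂ K} {ξ : Derivation ℂ K K}
  {J : Bra K}

theorem homBra_add (hJ : IsAlt J) {A B : Derivation ℂ K K} {p q : ℂ} (h1 : HomBra A p J)
    (h2 : HomBra B q J) : HomBra (A + B) (p + q) J := by
  intro x y z t
  have e2 : J ((A + B) y) z t x = J (A y) z t x + J (B y) z t x := by
    rw [IsAlt.slot2 hJ x _ z t, IsAlt.slot2 hJ x (A y) z t, IsAlt.slot2 hJ x (B y) z t,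
      Derivation.add_apply, map_add]
  have e3 : J y ((A + B) z) t x = J y (A z) t x + J y (B z) t x := by
    rw [IsAlt.slot3 hJ x y _ t, IsAlt.slot3 hJ x y (A z) t, IsAlt.slot3 hJ x y (B z) t,
      Derivation.add_apply, map_add]
  have e4 : J y z ((A + B) t) x = J y z (A t) x + J y z (B t) x := by
    rw [IsAlt.slot4 hJ x y z _, IsAlt.slot4 hJ x y z (A t), IsAlt.slot4 hJ x y z (B t),
      Derivation.add_apply, map_add]
  rw [e2, e3, e4, Derivation.add_apply, Derivation.add_apply, map_add, h1 x y z t, h2 x y z t,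
    add_smul]
  ring

theorem homBra_smul (hJ : IsAlt J) {A : Derivation ℂ K K} {p : ℂ} (s : ℂ) (h : HomBra A p J) :
    HomBra (s • A) (s * p) J := by
  intro x y z t
  have e2 : J ((s • A) y) z t x = s • J (A y) z t x := by
    rw [IsAlt.slot2 hJ x _ z t, IsAlt.slot2 hJ x (A y) z t, Derivation.smul_apply,
      Derivation.map_smul]
  have e3 : J y ((s • A) z) t x = s • J y (A z) t x := by
    rw [IsAlt.slot3 hJ x y _ t, IsAlt.slot3 hJ x y (A z) t, Derivation.smul_apply,
      Derivation.map_smul]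
  have e4 : J y z ((s • A) t) x = s • J y z (A t) x := by
    rw [IsAlt.slot4 hJ x y z _, IsAlt.slot4 hJ x y z (A t), Derivation.smul_apply,
      Derivation.map_smul]
  rw [e2, e3, e4, Derivation.smul_apply, Derivation.smul_apply, Derivation.map_smul, h x y z t,
    mul_smul]
  module

theorem homBra_sum (hJ : IsAlt J) {r : ℕ} {H : Fin r → Derivation ℂ K K} {w : Fin r → ℂ}
    (h : ∀ i, HomBra (H i) (w i) J) (ρ : Fin r → ℂ) (S : Finset (Fin r)) :
    HomBra (∑ i ∈ S, ρ i • H i) (∑ i ∈ S, ρ i * w i) J := by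
  classical
  induction S using Finset.induction_on with
  | empty =>
    rw [Finset.sum_empty, Finset.sum_empty]
    intro x y z t
    have e2 : J 0 z t x = 0 := by
      rw [IsAlt.slot2 hJ x _ z t, map_zero]
    have e3 : J y 0 t x = 0 := by
      rw [IsAlt.slot3 hJ x y _ t, map_zero]
    have e4 : J y z 0 x = 0 := by
      rw [IsAlt.slot4 hJ x y z _, map_zero]
    simp only [Derivation.coe_zero, Pi.zero_apply, e2, e3, e4, map_zero, zero_smul, add_zero,
      sub_zero]
  | insert i S hi ih =>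
    rw [Finset.sum_insert hi, Finset.sum_insert hi]
    exact homBra_add hJ (homBra_smul hJ _ (h i)) ih

/-- value of a combination of the torus at a weight vector -/
theorem comb_apply {r : ℕ} {H : Fin r → Derivation ℂ K K} {m : Fin r → ℤ} {y : K}
    (hy : IsW H m y) (ρ : Fin r → ℝ) :
    (∑ i, (ρ i : ℂ) • H i) y = ((∑ i, ρ i * m i : ℝ) : ℂ) • y := by
  have h1 : ∀ S : Finset (Fin r), (∑ i ∈ S, (ρ i : ℂ) • H i) y =
      ((∑ i ∈ S, ρ i * m i : ℝ) : ℂ) • y := by
    classical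
    intro S
    induction S using Finset.induction_on with
    | empty => simp
    | insert i S hi ih =>
      rw [Finset.sum_insert hi, Finset.sum_insert hi, Derivation.add_apply, ih,
        Derivation.smul_apply, hy i]
      push_cast
      module
  exact h1 Finset.univ

/-- a Reeb field in the direction `ρ` -/
theorem cone_comb {r : ℕ} {H : Fin r → Derivation ℂ K K} {c : Fin r → ℝ} (h : IsCone R ξ)
    (hT : Tor R ξ H c) {ρ : Fin r → ℝ}
    (hρ : ∀ (m : Fin r → ℤ) (y : K), y ∈ R → y ≠ 0 → IsW H m y → 0 ≤ ∑ i, ρ i * m i) {t : ℝ}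
    (ht : 0 < t) : IsCone R (ξ + (t : ℂ) • ∑ i, (ρ i : ℂ) • H i) := by
  have hxi : ∀ (m : Fin r → ℤ) (y : K), IsW H m y → ξ y = ((∑ i, c i * m i : ℝ) : ℂ) • y := by
    intro m y hy
    rw [hT.xi]
    exact comb_apply hy c
  have hval : ∀ (m : Fin r → ℤ) (y : K), IsW H m y →
      (ξ + (t : ℂ) • ∑ i, (ρ i : ℂ) • H i) y =
        ((∑ i, c i * m i + t * ∑ i, ρ i * m i : ℝ) : ℂ) • y := by
    intro m y hy
    rw [Derivation.add_apply, Derivation.smul_apply, comb_apply hy ρ, hxi m y hy]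
    push_cast
    module
  refine ⟨h.frac, h.fg, fun x hx => ?_, fun x hx hx0 => ?_⟩
  · refine Submodule.span_le.mpr ?_ (hT.span x hx)
    rintro y ⟨hyR, m, hm⟩
    by_cases hy0 : y = 0
    · rw [hy0]
      exact Submodule.zero_mem _
    · refine mem_hsp hyR ?_ (hval m y hm)
      exact add_nonneg (h.eig_nonneg hyR hy0 (hxi m y hm)) (mul_nonneg ht.le (hρ m y hyR hy0 hm))
  · -- `x = z + y`, `z` of degree `0`
    have h1 : ∀ x ∈ Submodule.span ℂ {y | y ∈ R ∧ ∃ m : Fin r → ℤ, IsW H m y},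
        ∃ (z : ℂ) (y : K), x = algebraMap ℂ K z + y ∧
          y ∈ RH R (ξ + (t : ℂ) • ∑ i, (ρ i : ℂ) • H i) (fun c => 0 < c) := by
      intro x hx
      induction hx using Submodule.span_induction with
      | mem y hy =>
        obtain ⟨hyR, m, hm⟩ := hy
        by_cases hy0 : y = 0
        · exact ⟨0, 0, by rw [hy0, map_zero, zero_add], Submodule.zero_mem _⟩
        · rcases lt_or_eq_of_le (h.eig_nonneg hyR hy0 (hxi m y hm)) with h2 | h2
          · refine ⟨0, y, by rw [map_zero, zero_add], mem_hsp hyR ?_ (hval m y hm)⟩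
            exact add_pos_of_pos_of_nonneg h2 (mul_nonneg ht.le (hρ m y hyR hy0 hm))
          · obtain ⟨z, hz⟩ := h.const y hyR (by rw [hxi m y hm, ← h2]; simp)
            exact ⟨z, 0, by rw [add_zero]; exact hz, Submodule.zero_mem _⟩
      | zero => exact ⟨0, 0, by rw [map_zero, add_zero], Submodule.zero_mem _⟩
      | add x y _ _ hx hy =>
        obtain ⟨z, a, rfl, ha⟩ := hx
        obtain ⟨z', a', rfl, ha'⟩ := hy
        exact ⟨z + z', a + a', by rw [map_add]; ring, Submodule.add_mem _ ha ha'⟩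
      | smul s x _ hx =>
        obtain ⟨z, a, rfl, ha⟩ := hx
        exact ⟨s * z, s • a, by rw [smul_add, map_mul, Algebra.smul_def],
          Submodule.smul_mem _ s ha⟩
    obtain ⟨z, y, hxy, hy⟩ := h1 x (hT.span x hx)
    have h2 : (ξ + (t : ℂ) • ∑ i, (ρ i : ℂ) • H i) y = (((0 : ℝ)) : ℂ) • y := by
      have h3 : (ξ + (t : ℂ) • ∑ i, (ρ i : ℂ) • H i) x =
          (ξ + (t : ℂ) • ∑ i, (ρ i : ℂ) • H i) y := by
        rw [hxy, map_add, Derivation.map_algebraMap, zero_add]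
      rw [← h3, hx0]
      simp
    by_cases hy0 : y = 0
    · exact ⟨z, by rw [hxy, hy0, add_zero]⟩
    · exact absurd (prop_of_mem_hsp
        (A := ((ξ + (t : ℂ) • ∑ i, (ρ i : ℂ) • H i : Derivation ℂ K K) : K →ₗ[ℂ] K)) hy0 h2 hy)
        (lt_irrefl _)

/-- log discrepancies of Reeb fields -/
theorem ldLe_wt (hJ : IsAlt J) {ζ : Derivation ℂ K K} (h : IsCone R ζ) {b : ℝ}
    (hb : HomBra ζ (b : ℂ) J) {w : RVal K} (hw : IsWt R ζ w) : LDLe J w b := by
  refine ldLe_of_hom h (isWs_of_isWt hw) hJ ?_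
  rintro x hx y hy z hz t ht hx0 hy0 hz0 ht0 ⟨c₁, e1⟩ ⟨c₂, e2⟩ ⟨c₃, e3⟩ ⟨c₄, e4⟩
  by_cases h0 : J y z t x = 0
  · exact Or.inl h0
  · refine Or.inr ?_
    have e := hw.val_eig h h0 (bra_eig hJ hb e1 e2 e3 e4)
    rw [e, hw.val_eig h hx0 e1, hw.val_eig h hy0 e2, hw.val_eig h hz0 e3, hw.val_eig h ht0 e4]

theorem s_INT : S_INT := by
  intro K _ _ R ξ J v a V r H c hC hM hT w₀ hw₀ ρ hρ hex
  obtain ⟨m, F, hF, hF0, hm, hpos⟩ := hex
  have hξF : ξ F = ((∑ i, c i * m i : ℝ) : ℂ) • F := by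
    rw [hT.xi]
    exact comb_apply hm c
  set δ : ℝ := ∑ i, c i * m i with hδ
  set p : ℝ := ∑ i, ρ i * m i with hp
  set q : ℝ := ∑ i, ρ i * w₀ i with hq
  have hδ0 : 0 ≤ δ := hC.toIsCone.eig_nonneg hF hF0 hξF
  have hmin : IsMin R ξ J v a V := hM.toMin
  have ha := hM.apos
  -- the inequality for each `t`
  have key : ∀ t : ℝ, 0 < t → a * (δ + t * p) ≤ 4 * δ * (a + t * q) := by
    intro t ht
    have h' := cone_comb hC.toIsCone hT hρ ht
    obtain ⟨w, hw⟩ := h'.exists_wt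
    have hb : HomBra (ξ + (t : ℂ) • ∑ i, (ρ i : ℂ) • H i) ((a + t * q : ℝ) : ℂ) J := by
      have h1 := homBra_add hC.alt hC.hom (homBra_smul hC.alt (t : ℂ)
        (homBra_sum hC.alt hw₀ (fun i => (ρ i : ℂ)) Finset.univ))
      have e : ((a + t * q : ℝ) : ℂ) = (a : ℂ) + (t : ℂ) * ∑ i, (ρ i : ℂ) * ((w₀ i : ℤ) : ℂ) := by
        rw [hq]
        push_cast
        rfl
      rw [e]
      exact h1
    have hld := ldLe_wt hC.alt h' hb hw
    have hFe : (ξ + (t : ℂ) • ∑ i, (ρ i : ℂ) • H i) F = ((δ + t * p : ℝ) : ℂ) • F := by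
      have e3 : (∑ i, (ρ i : ℂ) • H i) F = ((p : ℝ) : ℂ) • F := comb_apply hm ρ
      rw [Derivation.add_apply, Derivation.smul_apply, e3, hξF]
      push_cast
      module
    have h2 := (s_T0 K R ξ J v a V hC hmin w (a + t * q)
      (fun x hx hx0 => hw.nonneg h' hx hx0) hld).2 F δ hF hF0 hξF
    rwa [hw.val_eig h' hF0 hFe] at h2
  by_contra hcon
  have hq0 : q ≤ 0 := not_lt.mp hcon
  have hap : 0 < a * p := mul_pos ha hpos
  have h1 := key ((3 * a * δ + 1) / (a * p)) (by positivity)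
  have h2 : (3 * a * δ + 1) / (a * p) * (a * p) = 3 * a * δ + 1 := div_mul_cancel₀ _ hap.ne'
  have h3 : 0 ≤ -(4 * δ * ((3 * a * δ + 1) / (a * p) * q)) := by
    have h4 : 0 ≤ (3 * a * δ + 1) / (a * p) := by positivity
    have h5 : (3 * a * δ + 1) / (a * p) * q ≤ 0 := mul_nonpos_of_nonneg_of_nonpos h4 hq0
    have h6 : 4 * δ * ((3 * a * δ + 1) / (a * p) * q) ≤ 0 :=
      mul_nonpos_of_nonneg_of_nonpos (by positivity) h5
    linarith
  have e1 : a * (δ + (3 * a * δ + 1) / (a * p) * p) =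
      a * δ + (3 * a * δ + 1) / (a * p) * (a * p) := by ring
  have e2 : 4 * δ * (a + (3 * a * δ + 1) / (a * p) * q) =
      4 * δ * a + 4 * δ * ((3 * a * δ + 1) / (a * p) * q) := by ring
  rw [e1, e2, h2] at h1
  linarith

end Pool.Agent.Helper37.D4
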