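import Pool.Agent.Helper88.D4.Stmts4
import Pool.Agent.Helper12.D4.Ai
import Pool.Agent.Helper11.D4.EX1

/-!
# Project D4: the 2-form of a Poisson bracket with a volume form in dimension 4
-/

set_option autoImplicit false

namespace Pool.Agent.Helper37.D4

open Pool.Agent.Helper37.SD Pool.Agent.Helper88.D4 Pool.Agent.Helper12.D4 Module

variable {K : Type} [Field K] [Algebra ℂ K]

/-- The minor `A (z k) B (z l) - A (z l) B (z k)`. -/
def Wd (z : Fin 4 → K) (A B : Derivation ℂ K K) (k l : Fin 4) : K :=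
  A (z k) * B (z l) - A (z l) * B (z k)

/-- The dual of the bivector `h` for the frame `z`, times `[z 0, z 1, z 2, z 3]`. -/
def omv (h : K → Derivation ℂ K K) (z : Fin 4 → K) (A B : Derivation ℂ K K) : K :=
  h (z 0) (z 1) * Wd z A B 2 3 - h (z 0) (z 2) * Wd z A B 1 3 + h (z 0) (z 3) * Wd z A B 1 2 +
    h (z 1) (z 2) * Wd z A B 0 3 - h (z 1) (z 3) * Wd z A B 0 2 + h (z 2) (z 3) * Wd z A B 0 1

/-- The 2-form dual to the bivector `h`. -/
noncomputable def omF (J : Bra K) (h : K → Derivation ℂ K K) (z : Fin 4 → K) : Form K :=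
  LinearMap.mk₂ K (fun A B => (brk J z)⁻¹ * omv h z A B)
    (by
      intro A A' B
      simp only [omv, Wd, Derivation.add_apply]
      ring)
    (by
      intro c A B
      simp only [omv, Wd, Derivation.smul_apply, smul_eq_mul]
      ring)
    (by
      intro A B B'
      simp only [omv, Wd, Derivation.add_apply]
      ring)
    (by
      intro c A B
      simp only [omv, Wd, Derivation.smul_apply, smul_eq_mul]
      ring)

theorem omF_apply (J : Bra K) (h : K → Derivation ℂ K K) (z : Fin 4 → K)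
    (A B : Derivation ℂ K K) : omF J h z A B = (brk J z)⁻¹ * omv h z A B := rfl

theorem omF_alt (J : Bra K) (h : K → Derivation ℂ K K) (z : Fin 4 → K)
    (A : Derivation ℂ K K) : omF J h z A A = 0 := by
  rw [omF_apply]
  simp only [omv, Wd]
  ring

/-- the expansion of a derivation in a frame -/
theorem expA {J : Bra K} (hJ : IsAlt J) (ht : Algebra.trdeg ℂ K = 4) {z : Fin 4 → K}
    (hz : brk J z ≠ 0) (A : Derivation ℂ K K) (y : K) :
    A y = dfr J z 0 y * A (z 0) + dfr J z 1 y * A (z 1) + dfr J z 2 y * A (z 2) +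
      dfr J z 3 y * A (z 3) := by
  conv_lhs => rw [dfr_sum hJ ht hz A]
  rw [der_sum, Fin.sum_univ_four]
  simp only [Derivation.smul_apply, smul_eq_mul]
  ring

/-- the expansion of the bracket in a frame -/
theorem expB {J : Bra K} (hJ : IsAlt J) (ht : Algebra.trdeg ℂ K = 4) {z : Fin 4 → K}
    (hz : brk J z ≠ 0) (f : Fin 4 → K) : brk J f = dt (dfr J z) f * brk J z := by
  have h1 := s_JD K J ht hJ (dfr J z) f z
  have h2 : dt (dfr J z) z = 1 := by
    have h3 : (Matrix.of fun i j => dfr J z i (z j)) = (1 : Matrix (Fin 4) (Fin 4) K) := by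
      ext i j
      rw [Matrix.of_apply, dfr_apply hJ hz, Matrix.one_apply]
    rw [dt, h3, Matrix.det_one]
  rw [h2, mul_one] at h1
  rw [h1, mul_comm]

omit [Algebra ℂ K] in
/-- the determinant of a 4 by 4 matrix -/
theorem det4 (M : Matrix (Fin 4) (Fin 4) K) : M.det =
    (M 0 0 * M 1 1 - M 0 1 * M 1 0) * (M 2 2 * M 3 3 - M 2 3 * M 3 2) -
    (M 0 0 * M 1 2 - M 0 2 * M 1 0) * (M 2 1 * M 3 3 - M 2 3 * M 3 1) +
    (M 0 0 * M 1 3 - M 0 3 * M 1 0) * (M 2 1 * M 3 2 - M 2 2 * M 3 1) +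
    (M 0 1 * M 1 2 - M 0 2 * M 1 1) * (M 2 0 * M 3 3 - M 2 3 * M 3 0) -
    (M 0 1 * M 1 3 - M 0 3 * M 1 1) * (M 2 0 * M 3 2 - M 2 2 * M 3 0) +
    (M 0 2 * M 1 3 - M 0 3 * M 1 2) * (M 2 0 * M 3 1 - M 2 1 * M 3 0) := by
  simp [Matrix.det_succ_row_zero, Fin.sum_univ_succ, Fin.succAbove]
  ring

section Cone

variable {R : Subalgebra ℂ K} {ξ : Derivation ℂ K K} {J : Bra K} {a s : ℝ}
  {h : K → Derivation ℂ K K}

theorem h_self (hh : IsPoi R ξ J s h) {b : ℝ} {y : K} (hy : IsH R ξ b y) : h y y = 0 := by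
  have := char0 K
  exact self_eq_neg.1 (hh.skew b b y y hy hy)

/-- the expansion of the Poisson bracket in a frame -/
theorem expH (hc : Cone4 R ξ J a) (hh : IsPoi R ξ J s h) {z : Fin 4 → K}
    (hz : brk J z ≠ 0) (hzh : ∀ i, ∃ b, IsH R ξ b (z i)) {y y' : K} (hy : ∃ b, IsH R ξ b y)
    (hy' : ∃ b, IsH R ξ b y') :
    h y y' = (dfr J z 0 y * dfr J z 1 y' - dfr J z 1 y * dfr J z 0 y') * h (z 0) (z 1) +
      (dfr J z 0 y * dfr J z 2 y' - dfr J z 2 y * dfr J z 0 y') * h (z 0) (z 2) +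
      (dfr J z 0 y * dfr J z 3 y' - dfr J z 3 y * dfr J z 0 y') * h (z 0) (z 3) +
      (dfr J z 1 y * dfr J z 2 y' - dfr J z 2 y * dfr J z 1 y') * h (z 1) (z 2) +
      (dfr J z 1 y * dfr J z 3 y' - dfr J z 3 y * dfr J z 1 y') * h (z 1) (z 3) +
      (dfr J z 2 y * dfr J z 3 y' - dfr J z 3 y * dfr J z 2 y') * h (z 2) (z 3) := by
  obtain ⟨b, hb⟩ := hy
  obtain ⟨b', hb'⟩ := hy'
  have hs : ∀ i, h y (z i) = -h (z i) y := fun i => by
    obtain ⟨c, hc⟩ := hzh i
    exact hh.skew _ _ _ _ hb hc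
  have h0 : ∀ i, h (z i) (z i) = 0 := fun i => by
    obtain ⟨c, hc⟩ := hzh i
    exact h_self hh hc
  have ha : ∀ i j, h (z i) (z j) = -h (z j) (z i) := fun i j => by
    obtain ⟨c, hc⟩ := hzh i
    obtain ⟨d, hd⟩ := hzh j
    exact hh.skew _ _ _ _ hc hd
  rw [expA hc.alt hc.trdeg hz (h y) y', hs, hs, hs, hs, expA hc.alt hc.trdeg hz (h (z 0)) y,
    expA hc.alt hc.trdeg hz (h (z 1)) y, expA hc.alt hc.trdeg hz (h (z 2)) y,
    expA hc.alt hc.trdeg hz (h (z 3)) y, h0, h0, h0, h0, ha 1 0, ha 2 0, ha 3 0, ha 2 1, ha 3 1,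
    ha 3 2]
  ring

/-- **The form does not depend on the frame.** -/
theorem om_formula (hc : Cone4 R ξ J a) (hh : IsPoi R ξ J s h) {z : Fin 4 → K}
    (hz : brk J z ≠ 0) (hzh : ∀ i, ∃ b, IsH R ξ b (z i)) {f : Fin 4 → K}
    (hf : ∀ i, ∃ b, IsH R ξ b (f i)) (A B : Derivation ℂ K K) :
    brk J f * omF J h z A B = omv h f A B := by
  have hW : ∀ k l, Wd f A B k l =
      (dfr J z 0 (f k) * dfr J z 1 (f l) - dfr J z 1 (f k) * dfr J z 0 (f l)) * Wd z A B 0 1 +
      (dfr J z 0 (f k) * dfr J z 2 (f l) - dfr J z 2 (f k) * dfr J z 0 (f l)) * Wd z A B 0 2 +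
      (dfr J z 0 (f k) * dfr J z 3 (f l) - dfr J z 3 (f k) * dfr J z 0 (f l)) * Wd z A B 0 3 +
      (dfr J z 1 (f k) * dfr J z 2 (f l) - dfr J z 2 (f k) * dfr J z 1 (f l)) * Wd z A B 1 2 +
      (dfr J z 1 (f k) * dfr J z 3 (f l) - dfr J z 3 (f k) * dfr J z 1 (f l)) * Wd z A B 1 3 +
      (dfr J z 2 (f k) * dfr J z 3 (f l) - dfr J z 3 (f k) * dfr J z 2 (f l)) *
        Wd z A B 2 3 := by
    intro k l
    simp only [Wd]
    rw [expA hc.alt hc.trdeg hz A (f k), expA hc.alt hc.trdeg hz A (f l),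
      expA hc.alt hc.trdeg hz B (f k), expA hc.alt hc.trdeg hz B (f l)]
    ring
  have hH : ∀ i j, h (f i) (f j) = _ := fun i j => expH hc hh hz hzh (hf i) (hf j)
  rw [omF_apply, expB hc.alt hc.trdeg hz f, mul_assoc, mul_inv_cancel_left₀ hz]
  rw [omv, omv, hH 0 1, hH 0 2, hH 0 3, hH 1 2, hH 1 3, hH 2 3, hW 2 3, hW 1 3, hW 1 2, hW 0 3,
    hW 0 2, hW 0 1]
  rw [dt, det4]
  simp only [Matrix.of_apply]
  generalize Wd z A B 0 1 = w01
  generalize Wd z A B 0 2 = w02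
  generalize Wd z A B 0 3 = w03
  generalize Wd z A B 1 2 = w12
  generalize Wd z A B 1 3 = w13
  generalize Wd z A B 2 3 = w23
  generalize h (z 0) (z 1) = p01
  generalize h (z 0) (z 2) = p02
  generalize h (z 0) (z 3) = p03
  generalize h (z 1) (z 2) = p12
  generalize h (z 1) (z 3) = p13
  generalize h (z 2) (z 3) = p23
  generalize dfr J z 0 (f 0) = g00
  generalize dfr J z 0 (f 1) = g01
  generalize dfr J z 0 (f 2) = g02
  generalize dfr J z 0 (f 3) = g03
  generalize dfr J z 1 (f 0) = g10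
  generalize dfr J z 1 (f 1) = g11
  generalize dfr J z 1 (f 2) = g12
  generalize dfr J z 1 (f 3) = g13
  generalize dfr J z 2 (f 0) = g20
  generalize dfr J z 2 (f 1) = g21
  generalize dfr J z 2 (f 2) = g22
  generalize dfr J z 2 (f 3) = g23
  generalize dfr J z 3 (f 0) = g30
  generalize dfr J z 3 (f 1) = g31
  generalize dfr J z 3 (f 2) = g32
  generalize dfr J z 3 (f 3) = g33
  ring

end Cone

end Pool.Agent.Helper37.D4
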