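import Pool.Agent.Helper37.D4.OmA
import Pool.Agent.Helper85.D4.OmD

/-!
# Project D4: the 2-form of a Poisson bracket exists and is regular
-/

set_option autoImplicit false

namespace Pool.Agent.Helper37.D4

open Pool.Agent.Helper37.SD Pool.Agent.Helper88.D4 Pool.Agent.Helper12.D4 Module

variable {K : Type} [Field K] [Algebra ℂ K] {R : Subalgebra ℂ K} {ξ : Derivation ℂ K K}
  {J : Bra K} {a s : ℝ} {h : K → Derivation ℂ K K}

/-- The form of a bracket is regular. -/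
theorem om_reg (hc : Cone4 R ξ J a) (hh : IsPoi R ξ J s h) {z : Fin 4 → K}
    (hz : brk J z ≠ 0) (hzh : ∀ i, ∃ b, IsH R ξ b (z i)) : IsReg R (omF J h z) := by
  refine ⟨omF_alt J h z, fun D E hD hE => ?_⟩
  by_contra hx
  obtain ⟨u, hu, hneg⟩ := Pool.Agent.Helper11.D4.s_EX1 K R hc.frac hc.fg hc.normal _ hx
  obtain ⟨f, b, hf, hf0, hf1⟩ := Pool.Agent.Helper85.D4.ex_hframe_u hc u hu
  have h1 := om_formula hc hh hz hzh (fun i => ⟨b i, hf i⟩) D E
  have hx0 : omF J h z D E ≠ 0 := fun h => hx (h ▸ R.zero_mem)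
  have hP : ∀ i j, h (f i) (f j) ∈ R := fun i j => (hh.reg _ _ _ _ (hf i) (hf j)).1
  have hW : ∀ k l, Wd f D E k l ∈ R := fun k l =>
    R.sub_mem (R.mul_mem (hD _ (hf k).1) (hE _ (hf l).1))
      (R.mul_mem (hD _ (hf l).1) (hE _ (hf k).1))
  have h2 : omv h f D E ∈ R :=
    R.add_mem (R.sub_mem (R.add_mem (R.add_mem (R.sub_mem (R.mul_mem (hP 0 1) (hW 2 3))
      (R.mul_mem (hP 0 2) (hW 1 3))) (R.mul_mem (hP 0 3) (hW 1 2)))
      (R.mul_mem (hP 1 2) (hW 0 3))) (R.mul_mem (hP 1 3) (hW 0 2)))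
      (R.mul_mem (hP 2 3) (hW 0 1))
  rw [← h1] at h2
  have h3 := hu.nonneg _ h2 (mul_ne_zero hf0 hx0)
  rw [u.map_mul _ _ hf0 hx0, hf1, zero_add] at h3
  linarith

/-- The values of the form at the fields of homogeneous functions. -/
theorem om_omF (hc : Cone4 R ξ J a) (hh : IsPoi R ξ J s h) {z : Fin 4 → K}
    (hz : brk J z ≠ 0) (hzh : ∀ i, ∃ b, IsH R ξ b (z i)) :
    Pool.Agent.Helper85.D4.OmF R ξ J h (omF J h z) := by
  intro b c d x y w hx hy hw A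
  have hH : ∀ y y' : K, (∃ b, IsH R ξ b y) → (∃ b, IsH R ξ b y') → h y y' = _ :=
    fun y y' hy hy' => expH hc hh hz hzh hy hy'
  have hB : ∀ k, J x y w (z k) = dt (dfr J z) ![z k, x, y, w] * brk J z := fun k =>
    expB hc.alt hc.trdeg hz ![z k, x, y, w]
  rw [omF_apply, omv, Wd, Wd, Wd, Wd, Wd, Wd, hB, hB, hB, hB]
  simp only [dt, det4, Matrix.of_apply, Matrix.cons_val, dfr_apply hc.alt hz]
  rw [expA hc.alt hc.trdeg hz A x, expA hc.alt hc.trdeg hz A y, expA hc.alt hc.trdeg hz A w,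
    hH y w ⟨_, hy⟩ ⟨_, hw⟩, hH w x ⟨_, hw⟩ ⟨_, hx⟩, hH x y ⟨_, hx⟩ ⟨_, hy⟩]
  simp only [Fin.isValue, Fin.reduceEq, if_true, if_false, zero_mul, mul_zero, sub_zero, zero_sub,
    one_mul, mul_one, zero_add, add_zero]
  rw [inv_mul_eq_iff_eq_mul₀ hz]
  generalize brk J z = t
  generalize h (z 0) (z 1) = p01
  generalize h (z 0) (z 2) = p02
  generalize h (z 0) (z 3) = p03
  generalize h (z 1) (z 2) = p12
  generalize h (z 1) (z 3) = p13
  generalize h (z 2) (z 3) = p23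
  ring

theorem om_exists (hc : Cone4 R ξ J a) (hh : IsPoi R ξ J s h) :
    ∃ ω : Form K, IsReg R ω ∧ Pool.Agent.Helper85.D4.OmF R ξ J h ω := by
  obtain ⟨z, b, hb, hz⟩ := Pool.Agent.Helper85.D4.ex_hframe hc.toIsCone hc.alt
  exact ⟨omF J h z, om_reg hc hh hz fun i => ⟨_, hb i⟩, om_omF hc hh hz fun i => ⟨_, hb i⟩⟩

end Pool.Agent.Helper37.D4
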