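import Pool.Agent.Helper37.Q4.Dir
import Pool.Agent.Helper88.D4.Stmts

/-!
# Project D4, package V: S_V4
-/

set_option autoImplicit false

namespace Pool.Agent.Helper37.D4

open Pool.Agent.Helper88.D4

theorem s_V4 : S_V4 := Pool.Agent.Helper37.Q4.V4

end Pool.Agent.Helper37.D4
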